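import Pool.Agent.Helper54.GA.Stmts

/-!
Blocks G5 and G6: almost all windows merge; the windows and the invariant sets.
-/

set_option autoImplicit false

namespace Pool.Agent.Helper54.GA

open Pool.Agent.Helper68.Moeller Pool.Agent.Helper8 Pool.Agent.Helper8.CO Pool.Agent.Helper8.ND Pool.Agent.Helper28
  Filter Topology

variable {ρ : ℤ}

/-- Sets of density zero. -/
theorem zero_of_le {A : Set ℤ} (h : ∀ ε : ℝ, 0 < ε → ∀ᶠ x : ℝ in atTop, cN A x ≤ ε * x) :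
    Tendsto (fun x : ℝ => cN A x / x) atTop (𝓝 0) := by
  rw [Metric.tendsto_nhds]
  intro ε hε
  filter_upwards [h (ε / 2) (by linarith), eventually_gt_atTop 0] with x hx hx0
  rw [Real.dist_eq, sub_zero, abs_of_nonneg (div_nonneg (cN_nonneg _ _) hx0.le)]
  rw [div_lt_iff₀ hx0]
  nlinarith

theorem le_of_zero {A : Set ℤ} (h : Tendsto (fun x : ℝ => cN A x / x) atTop (𝓝 0)) {ε : ℝ} (hε : 0 < ε) :
    ∀ᶠ x : ℝ in atTop, cN A x ≤ ε * x := by
  filter_upwards [h.eventually (gt_mem_nhds hε), eventually_gt_atTop 0] with x hx hx0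
  rw [div_lt_iff₀ hx0] at hx
  exact hx.le

/-- Finitely many elements do not matter. -/
theorem zero_of_subset {A B : Set ℤ} {N : ℝ} (hAB : ∀ n ∈ A, N < (n : ℝ) → n ∈ B)
    (h : Tendsto (fun x : ℝ => cN B x / x) atTop (𝓝 0)) : Tendsto (fun x : ℝ => cN A x / x) atTop (𝓝 0) := by
  apply zero_of_le
  intro ε hε
  filter_upwards [le_of_zero h (by linarith : 0 < ε / 2), eventually_gt_atTop 0,
    eventually_ge_atTop (2 * |N| / ε)] with x hx hx0 hx1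
  have h1 : cN A x ≤ cN B x + cN {n : ℤ | (n : ℝ) ≤ N} x := by
    refine le_trans (POSB.cN_mono (fun n hn _ => ?_) x) (POSB.cN_union_le _ _ x)
    by_cases h3 : N < (n : ℝ)
    · exact Or.inl (hAB n hn h3)
    · exact Or.inr (not_lt.1 h3)
  have h2 : cN {n : ℤ | (n : ℝ) ≤ N} x ≤ |N| := by
    have h3 : cN {n : ℤ | (n : ℝ) ≤ N} x ≤ cN {n : ℤ | (n : ℝ) ≤ N} |N| := by
      unfold cN
      refine Nat.cast_le.2 (Set.ncard_le_ncard ?_ (finite_cN _ _))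
      rintro n ⟨a1, a2, a3⟩
      exact ⟨a1, a2, le_trans a1 (le_abs_self N)⟩
    exact h3.trans (cN_le _ (abs_nonneg N))
  have h3 : |N| ≤ ε / 2 * x := by
    rw [div_le_iff₀ hε] at hx1
    linarith
  linarith

theorem g5 (h1 : StmtG1) : StmtG5 := by
  intro ρ hρ w hw
  obtain ⟨C, hC, hG⟩ := h1 ρ hρ
  have hl2 : 0 < Real.log 2 := Real.log_pos (by norm_num)
  have hl21 : Real.log 2 ≤ 1 := by linarith [Real.log_two_lt_d9]
  apply zero_of_le
  intro ε hε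
  obtain ⟨δ, hδ⟩ : ∃ δ : ℝ, δ = ε / (16 * C) := ⟨_, rfl⟩
  have hδ0 : 0 < δ := by rw [hδ]; positivity
  obtain ⟨N, hN⟩ := hw δ hδ0
  have hev1 : ∀ᶠ x : ℝ in atTop, 1 / δ ≤ Real.sqrt (Real.log x) :=
    (Real.tendsto_sqrt_atTop.comp Real.tendsto_log_atTop).eventually_ge_atTop _
  have hev2 : ∀ᶠ x : ℝ in atTop, 8 ≤ Real.log x := Real.tendsto_log_atTop.eventually_ge_atTop _
  have hev3 : ∀ᶠ x : ℝ in atTop, 4 / ε ≤ Real.sqrt x := Real.tendsto_sqrt_atTop.eventually_ge_atTop _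
  filter_upwards [hev1, hev2, hev3, eventually_ge_atTop (1 : ℝ), eventually_ge_atTop (4 * |(N : ℝ)| / ε)]
    with x hx1 hx2 hx3 hx4 hx5
  have hx0 : 0 < x := by linarith
  obtain ⟨L, hL⟩ : ∃ L : ℝ, L = Real.log x := ⟨_, rfl⟩
  rw [← hL] at hx1 hx2
  have hL0 : 0 < L := by linarith
  have hsL : 0 < Real.sqrt L := Real.sqrt_pos.2 hL0
  have hsx : 0 < Real.sqrt x := Real.sqrt_pos.2 hx0
  have hsxx : Real.sqrt x * Real.sqrt x = x := Real.mul_self_sqrt hx0.le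
  -- the time
  obtain ⟨k, hk⟩ : ∃ k : ℕ, k = ⌊L / (4 * Real.log 2)⌋₊ := ⟨_, rfl⟩
  have hk1 : (k : ℝ) ≤ L / (4 * Real.log 2) := by rw [hk]; exact Nat.floor_le (by positivity)
  have hk2 : L / (4 * Real.log 2) < k + 1 := by rw [hk]; exact Nat.lt_floor_add_one _
  have hk3 : L / 4 ≤ L / (4 * Real.log 2) := by
    apply div_le_div_of_nonneg_left hL0.le (by positivity)
    linarith
  have hk4 : L / 8 ≤ k := by linarith
  have hkpos : 1 ≤ k := by
    have h2 : (1 : ℝ) ≤ k := by linarith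
    exact_mod_cast h2
  have h4k : (4 : ℝ) ^ k ≤ Real.sqrt x := by
    apply Real.le_sqrt_of_sq_le
    rw [← pow_mul, ← Real.log_le_log_iff (by positivity) hx0, Real.log_pow, ← hL]
    have e : Real.log 4 = 2 * Real.log 2 := by
      rw [show (4 : ℝ) = 2 ^ 2 by norm_num, Real.log_pow]
      push_cast
      ring
    rw [e]
    push_cast
    rw [le_div_iff₀ (by positivity)] at hk1
    linarith
  have h2k : (2 : ℝ) ^ k ≤ x := by
    have h2 : (2 : ℝ) ^ k ≤ 4 ^ k := pow_le_pow_left₀ (by norm_num) (by norm_num) k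
    have h3 : Real.sqrt x ≤ x := by
      rw [Real.sqrt_le_left hx0.le]
      nlinarith
    linarith
  -- the window
  obtain ⟨W, hW⟩ : ∃ W : ℝ, W = Real.exp (δ * Real.sqrt L) := ⟨_, rfl⟩
  have hW1 : 1 ≤ W := by rw [hW]; exact Real.one_le_exp (by positivity)
  have hlW : Real.log W = δ * Real.sqrt L := by rw [hW, Real.log_exp]
  have hmain := hG k x W hkpos h2k hW1
  rw [hlW] at hmain
  have hbound : (1 + δ * Real.sqrt L) / Real.sqrt k ≤ 8 * δ := by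
    have hk0 : (0 : ℝ) < k := by exact_mod_cast hkpos
    have h2 : Real.sqrt L ≤ 3 * Real.sqrt k := by
      rw [Real.sqrt_le_left (by positivity), mul_pow, Real.sq_sqrt hk0.le]
      linarith
    rw [div_le_iff₀ (Real.sqrt_pos.2 hk0)]
    have h3 : 1 ≤ δ * Real.sqrt L := by
      rw [div_le_iff₀ hδ0] at hx1
      linarith
    have h4 : δ * Real.sqrt L ≤ δ * (3 * Real.sqrt k) := mul_le_mul_of_nonneg_left h2 hδ0.le
    nlinarith [Real.sqrt_nonneg (k : ℝ)]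
  have hmin : C * min 1 ((1 + δ * Real.sqrt L) / Real.sqrt k) * x ≤ ε / 2 * x := by
    apply mul_le_mul_of_nonneg_right _ hx0.le
    have h2 : C * min 1 ((1 + δ * Real.sqrt L) / Real.sqrt k) ≤ C * (8 * δ) :=
      mul_le_mul_of_nonneg_left ((min_le_right _ _).trans hbound) hC.le
    have h3 : C * (8 * δ) = ε / 2 := by
      rw [hδ]
      field_simp
      norm_num
    linarith
  -- the inclusion
  have hsub : cN {n : ℤ | ¬ ∃ k : ℕ, (4 : ℝ) ^ k ≤ n ∧ ∀ h : ℤ, ρ ∣ h → |(h : ℝ)| ≤ w n → MM ρ k 0 n (n + h)} x ≤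
      cN {n : ℤ | ∃ h : ℤ, ρ ∣ h ∧ |(h : ℝ)| ≤ W ∧ ¬ MM ρ k 0 n (n + h)} x + (Real.sqrt x + |(N : ℝ)|) := by
    have e1 : {n : ℤ | n ∈ {n : ℤ | ¬ ∃ k : ℕ, (4 : ℝ) ^ k ≤ n ∧ ∀ h : ℤ, ρ ∣ h → |(h : ℝ)| ≤ w n →
        MM ρ k 0 n (n + h)} ∧ 0 < n ∧ (n : ℝ) ≤ x} ⊆
        {n : ℤ | n ∈ {n : ℤ | ∃ h : ℤ, ρ ∣ h ∧ |(h : ℝ)| ≤ W ∧ ¬ MM ρ k 0 n (n + h)} ∧ 0 < n ∧ (n : ℝ) ≤ x} ∪
        {n : ℤ | n ∈ (Set.univ : Set ℤ) ∧ 0 < n ∧ (n : ℝ) ≤ Real.sqrt x + |(N : ℝ)|} := by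
      rintro n ⟨a1, a2, a3⟩
      by_cases h2 : (n : ℝ) ≤ Real.sqrt x + |(N : ℝ)|
      · exact Or.inr ⟨Set.mem_univ n, a2, h2⟩
      · left
        refine ⟨?_, a2, a3⟩
        push Not at h2
        have hn1 : Real.sqrt x ≤ n := by linarith [abs_nonneg (N : ℝ)]
        have hnN : N ≤ n := by
          have h3 : (N : ℝ) ≤ n := by linarith [le_abs_self (N : ℝ)]
          exact_mod_cast h3
        have h3 : ¬ ∀ h : ℤ, ρ ∣ h → |(h : ℝ)| ≤ w n → MM ρ k 0 n (n + h) := fun h4 => a1 ⟨k, h4k.trans hn1, h4⟩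
        push Not at h3
        obtain ⟨h, b1, b2, b3⟩ := h3
        refine ⟨h, b1, b2.trans ((hN n hnN).trans ?_), b3⟩
        rw [hW, hL]
        apply Real.exp_le_exp.2
        apply mul_le_mul_of_nonneg_left _ hδ0.le
        apply Real.sqrt_le_sqrt
        exact Real.log_le_log (by linarith) a3
    have e2 := (Set.ncard_le_ncard e1 ((finite_cN _ x).union (finite_cN _ _))).trans (Set.ncard_union_le _ _)
    have e3 : cN {n : ℤ | ¬ ∃ k : ℕ, (4 : ℝ) ^ k ≤ n ∧ ∀ h : ℤ, ρ ∣ h → |(h : ℝ)| ≤ w n → MM ρ k 0 n (n + h)} x ≤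
      cN {n : ℤ | ∃ h : ℤ, ρ ∣ h ∧ |(h : ℝ)| ≤ W ∧ ¬ MM ρ k 0 n (n + h)} x +
        cN Set.univ (Real.sqrt x + |(N : ℝ)|) := by
      unfold cN
      exact_mod_cast e2
    have e4 := cN_le Set.univ (x := Real.sqrt x + |(N : ℝ)|) (by positivity)
    linarith
  have hs1 : Real.sqrt x ≤ ε / 4 * x := by
    rw [div_le_iff₀ hε] at hx3
    nlinarith
  have hs2 : |(N : ℝ)| ≤ ε / 4 * x := by
    rw [div_le_iff₀ hε] at hx5
    linarith
  linarith

theorem mem_iter54 (hρ : Odd ρ) {G : Set ℤ} {z : ℤ}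
    (hG : ∀ n : ℤ, z < n → (n ∈ G ↔ T 2 3 (fun _ => ρ) n ∈ G)) {k : ℕ} {n : ℤ}
    (hn : (2 : ℝ) ^ k * (|(ρ : ℝ)| + |(z : ℝ)| + 1) ≤ n) : n ∈ G ↔ (T 2 3 (fun _ => ρ))^[k] n ∈ G := by
  have h1 : ∀ i, i ≤ k → (n ∈ G ↔ (T 2 3 (fun _ => ρ))^[i] n ∈ G) := by
    intro i
    induction i with
    | zero => intro _; rfl
    | succ i ih =>
      intro hi
      rw [ih (by omega), Function.iterate_succ', Function.comp_apply]
      apply hG
      have h2 := orb_gt hρ (abs_nonneg (z : ℝ)) hn (i := i) (by omega)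
      have h3 : (z : ℝ) < (((T 2 3 (fun _ => ρ))^[i] n : ℤ) : ℝ) := lt_of_le_of_lt (le_abs_self _) h2
      exact_mod_cast h3
  exact h1 k le_rfl

theorem g6 (h5 : StmtG5) : StmtG6 := by
  intro ρ hρ w hw G z hG
  obtain ⟨N, hN⟩ := hw 1 one_pos
  obtain ⟨K, hK⟩ : ∃ K : ℝ, K = |(ρ : ℝ)| + |(z : ℝ)| + 1 := ⟨_, rfl⟩
  have hK1 : 1 ≤ K := by
    have h1 := abs_nonneg (ρ : ℝ)
    have h2 := abs_nonneg (z : ℝ)
    linarith
  refine zero_of_subset (N := max (max (N : ℝ) (16 * K ^ 2)) (Real.exp 16)) (fun n hn hNn => ?_) (h5 ρ hρ w hw)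
  have hn1 : (N : ℝ) < n := lt_of_le_of_lt ((le_max_left _ _).trans (le_max_left _ _)) hNn
  have hn2 : 16 * K ^ 2 < n := lt_of_le_of_lt ((le_max_right _ _).trans (le_max_left _ _)) hNn
  have hn3 : Real.exp 16 < n := lt_of_le_of_lt (le_max_right _ _) hNn
  have hn0 : (0 : ℝ) < n := by
    have := Real.exp_pos 16
    linarith
  rintro ⟨k, hk4, hMM⟩
  apply hn
  intro h hρh hh
  have hM := hMM h hρh hh
  -- sizes
  have hs4 : 4 * K ≤ Real.sqrt n := by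
    apply Real.le_sqrt_of_sq_le
    nlinarith
  have hsn : Real.sqrt n * Real.sqrt n = n := Real.mul_self_sqrt hn0.le
  have h2k : (2 : ℝ) ^ k ≤ Real.sqrt n := by
    apply Real.le_sqrt_of_sq_le
    rw [← pow_mul, mul_comm k 2, pow_mul]
    norm_num
    exact hk4
  have hlog : 16 ≤ Real.log n := by
    rw [Real.le_log_iff_exp_le hn0]
    exact hn3.le
  have hwn : w n ≤ Real.sqrt n := by
    refine (hN n (by exact_mod_cast hn1.le)).trans ?_
    rw [one_mul]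
    have h1 : Real.sqrt (Real.log n) ≤ Real.log n / 4 := by
      rw [Real.sqrt_le_left (by linarith)]
      nlinarith
    have h2 : Real.sqrt n = Real.exp (Real.log n / 2) := by
      rw [Real.sqrt_eq_rpow, Real.rpow_def_of_pos hn0]
      ring_nf
    rw [h2]
    apply Real.exp_le_exp.2
    linarith
  have hhn : |(h : ℝ)| ≤ Real.sqrt n := hh.trans hwn
  have hb1 : (2 : ℝ) ^ k * K ≤ n / 4 := by
    have h1 : (2 : ℝ) ^ k * K ≤ Real.sqrt n * K := mul_le_mul_of_nonneg_right h2k (by linarith)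
    have h2 : Real.sqrt n * (4 * K) ≤ Real.sqrt n * Real.sqrt n :=
      mul_le_mul_of_nonneg_left hs4 (Real.sqrt_nonneg _)
    nlinarith
  have hb2 : Real.sqrt n ≤ n / 4 := by
    have h2 : Real.sqrt n * 4 ≤ Real.sqrt n * Real.sqrt n :=
      mul_le_mul_of_nonneg_left (by linarith) (Real.sqrt_nonneg _)
    linarith
  have hg1 : (2 : ℝ) ^ k * (|(ρ : ℝ)| + |(z : ℝ)| + 1) ≤ n := by
    rw [← hK]
    linarith
  have hg2 : (2 : ℝ) ^ k * (|(ρ : ℝ)| + |(z : ℝ)| + 1) ≤ ((n + h : ℤ) : ℝ) := by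
    rw [← hK]
    push_cast
    have := neg_abs_le (h : ℝ)
    linarith
  rw [mem_iter54 hρ hG hg2, mem_iter54 hρ hG hg1, hM.1]

end Pool.Agent.Helper54.GA
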