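import Pool.Agent.Helper54.GA.G9

/-!
Windows of the size `x ^ θ`: invariant sets are almost pure in all but `O (√θ) x` of the windows (from G8).
-/

set_option autoImplicit false

namespace Pool.Agent.Helper54.GA

open Pool.Agent.Helper68.Moeller Pool.Agent.Helper8 Pool.Agent.Helper8.CO Pool.Agent.Helper8.ND Pool.Agent.Helper28
  Filter Topology

/-- (G10) windows of the size `x ^ θ` -/
def StmtG10 : Prop := ∀ ρ : ℤ, Odd ρ → ∃ C : ℝ, 0 < C ∧ ∀ (G : Set ℤ) (z : ℤ),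
  (∀ n : ℤ, z < n → (n ∈ G ↔ T 2 3 (fun _ => ρ) n ∈ G)) → ∀ θ ε : ℝ, 0 < θ → 0 < ε →
  ∀ᶠ x : ℝ in atTop,
    cN {n : ℤ | ε * x ^ θ < ({h : ℤ | ρ ∣ h ∧ |(h : ℝ)| ≤ x ^ θ ∧ ¬ (n + h ∈ G ↔ n ∈ G)}.ncard : ℝ)} x ≤
      C / ε * Real.sqrt θ * x

/-- The number of the multiples of `ρ` in an interval. -/
theorem card54 (ρ : ℤ) {w : ℝ} (hw : 1 ≤ w) (P : ℤ → Prop) :
    ({h : ℤ | ρ ∣ h ∧ |(h : ℝ)| ≤ w ∧ P h}.ncard : ℝ) ≤ 3 * w := by
  have h1 : {h : ℤ | ρ ∣ h ∧ |(h : ℝ)| ≤ w ∧ P h} ⊆ ((Finset.Icc (-⌊w⌋) ⌊w⌋ : Finset ℤ) : Set ℤ) := by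
    rintro h ⟨-, h2, -⟩
    obtain ⟨h3, h4⟩ := abs_le.1 h2
    rw [Finset.mem_coe, Finset.mem_Icc]
    refine ⟨?_, Int.le_floor.2 h4⟩
    have h5 : -h ≤ ⌊w⌋ := Int.le_floor.2 (by push_cast; linarith)
    linarith
  have h2 := Set.ncard_le_ncard h1 (Finset.finite_toSet _)
  rw [Set.ncard_coe_finset, Int.card_Icc] at h2
  have h3 : (0 : ℤ) ≤ ⌊w⌋ := Int.floor_nonneg.2 (by linarith)
  have h4 : ((⌊w⌋ + 1 - -⌊w⌋).toNat : ℤ) = 2 * ⌊w⌋ + 1 := by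
    rw [Int.toNat_of_nonneg (by omega)]
    ring
  have h5 : ((⌊w⌋ + 1 - -⌊w⌋).toNat : ℝ) = 2 * (⌊w⌋ : ℝ) + 1 := by exact_mod_cast h4
  have h6 : ({h : ℤ | ρ ∣ h ∧ |(h : ℝ)| ≤ w ∧ P h}.ncard : ℝ) ≤ ((⌊w⌋ + 1 - -⌊w⌋).toNat : ℝ) := by
    exact_mod_cast h2
  have h7 := Int.floor_le w
  linarith

theorem g10 (h8 : StmtG8) : StmtG10 := by
  intro ρ hρ
  obtain ⟨C, hC, hmain⟩ := h8 ρ hρ
  refine ⟨max (6 * C) 6, by positivity, fun G z hG θ ε hθ hε => ?_⟩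
  obtain ⟨C', hC'⟩ : ∃ C' : ℝ, C' = max (6 * C) 6 := ⟨_, rfl⟩
  have hC1 : 6 * C ≤ C' := by rw [hC']; exact le_max_left _ _
  have hC2 : 6 ≤ C' := by rw [hC']; exact le_max_right _ _
  rw [← hC']
  have hsθ : 0 < Real.sqrt θ := Real.sqrt_pos.2 hθ
  rcases le_or_gt θ (1 / 4) with hθ4 | hθ4
  swap
  · -- large windows
    filter_upwards [eventually_ge_atTop (1 : ℝ)] with x hx
    have hx0 : 0 < x := by linarith
    have hw1 : 1 ≤ x ^ θ := Real.one_le_rpow hx hθ.le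
    rcases le_or_gt 3 ε with h3 | h3
    · have he : {n : ℤ | ε * x ^ θ < ({h : ℤ | ρ ∣ h ∧ |(h : ℝ)| ≤ x ^ θ ∧ ¬ (n + h ∈ G ↔ n ∈ G)}.ncard : ℝ)} = ∅ := by
        ext n
        simp only [Set.mem_ofPred_eq, Set.mem_empty_iff_false, iff_false, not_lt]
        refine (card54 ρ hw1 _).trans ?_
        exact mul_le_mul_of_nonneg_right h3 (by linarith)
      rw [he, POSB.cN_empty]
      positivity
    · refine (cN_le _ hx0.le).trans ?_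
      have h4 : 1 / 2 ≤ Real.sqrt θ := by
        apply Real.le_sqrt_of_sq_le
        norm_num
        linarith
      have h5 : 1 ≤ C' / ε * Real.sqrt θ := by
        have h6 : 2 ≤ C' / ε := by
          rw [le_div_iff₀ hε]
          linarith
        nlinarith
      nlinarith
  have hl2 : 0 < Real.log 2 := Real.log_pos (by norm_num)
  have hl21 : Real.log 2 ≤ 1 := by linarith [Real.log_two_lt_d9]
  obtain ⟨K, hK⟩ : ∃ K : ℝ, K = |(ρ : ℝ)| + |(z : ℝ)| + 1 := ⟨_, rfl⟩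
  have hK1 : 1 ≤ K := by
    have h1 := abs_nonneg (ρ : ℝ)
    have h2 := abs_nonneg (z : ℝ)
    linarith
  have hev3 : ∀ᶠ x : ℝ in atTop, max 8 (1 / θ) ≤ Real.log x := Real.tendsto_log_atTop.eventually_ge_atTop _
  have hev4 : ∀ᶠ x : ℝ in atTop, ε / (C * Real.sqrt θ) ≤ Real.sqrt x := Real.tendsto_sqrt_atTop.eventually_ge_atTop _
  have hev5 : ∀ᶠ x : ℝ in atTop, 2 * K ≤ x ^ (1 / 4 : ℝ) :=
    (tendsto_rpow_atTop (by norm_num : (0 : ℝ) < 1 / 4)).eventually_ge_atTop _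
  filter_upwards [hev3, hev4, hev5, eventually_gt_atTop (1 : ℝ)] with x hx3 hx4 hx5 hx6
  have hx0 : 0 < x := by linarith
  have hw1 : 1 ≤ x ^ θ := Real.one_le_rpow hx6.le hθ.le
  have hx2 : x ^ θ ≤ x ^ (1 / 4 : ℝ) := Real.rpow_le_rpow_of_exponent_le hx6.le hθ4
  obtain ⟨L, hL⟩ : ∃ L : ℝ, L = Real.log x := ⟨_, rfl⟩
  rw [← hL] at hx3
  have hL8 : 8 ≤ L := (le_max_left _ _).trans hx3
  have hLθ : 1 / θ ≤ L := (le_max_right _ _).trans hx3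
  have hL0 : 0 < L := by linarith
  have hsx : 0 < Real.sqrt x := Real.sqrt_pos.2 hx0
  have hsxx : Real.sqrt x * Real.sqrt x = x := Real.mul_self_sqrt hx0.le
  obtain ⟨q, hq⟩ : ∃ q : ℝ, q = x ^ (1 / 4 : ℝ) := ⟨_, rfl⟩
  have hq0 : 0 < q := by rw [hq]; positivity
  have hqq : q * q = Real.sqrt x := by
    rw [hq, ← Real.rpow_add hx0, Real.sqrt_eq_rpow]
    norm_num
  -- the time
  obtain ⟨k, hk⟩ : ∃ k : ℕ, k = ⌊L / (4 * Real.log 2)⌋₊ := ⟨_, rfl⟩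
  have hk1 : (k : ℝ) ≤ L / (4 * Real.log 2) := by rw [hk]; exact Nat.floor_le (by positivity)
  have hk2 : L / (4 * Real.log 2) < k + 1 := by rw [hk]; exact Nat.lt_floor_add_one _
  have hk3 : L / 4 ≤ L / (4 * Real.log 2) := by
    apply div_le_div_of_nonneg_left hL0.le (by positivity)
    linarith
  have hk4 : L / 8 ≤ k := by linarith
  have hkpos : 1 ≤ k := by
    have h2 : (1 : ℝ) ≤ k := by linarith
    exact_mod_cast h2
  have h2k : (2 : ℝ) ^ k ≤ q := by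
    rw [← Real.log_le_log_iff (by positivity) hq0, Real.log_pow, hq, Real.log_rpow hx0, ← hL]
    rw [le_div_iff₀ (by positivity)] at hk1
    linarith
  have hqx : q ≤ x := by
    rw [hq]
    calc x ^ (1 / 4 : ℝ) ≤ x ^ (1 : ℝ) := Real.rpow_le_rpow_of_exponent_le hx6.le (by norm_num)
      _ = x := Real.rpow_one x
  have hb := hmain k x (x ^ θ) ε hkpos (h2k.trans hqx) hw1 hε
  -- the rate
  have hlw : Real.log (x ^ θ) = θ * L := by rw [Real.log_rpow hx0, hL]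
  have hk0 : (0 : ℝ) < k := by exact_mod_cast hkpos
  have hrate : (1 + Real.log (x ^ θ)) / k ≤ 16 * θ := by
    rw [hlw, div_le_iff₀ hk0]
    rw [div_le_iff₀ hθ] at hLθ
    have h1 : 16 * θ * (L / 8) ≤ 16 * θ * k := mul_le_mul_of_nonneg_left hk4 (by positivity)
    linarith
  have hrate2 : Real.sqrt ((1 + Real.log (x ^ θ)) / k) ≤ 4 * Real.sqrt θ := by
    refine (Real.sqrt_le_sqrt hrate).trans (le_of_eq ?_)
    rw [Real.sqrt_mul (by norm_num), show (16 : ℝ) = 4 ^ 2 by norm_num, Real.sqrt_sq (by norm_num)]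
  have hb2 : C / ε * Real.sqrt ((1 + Real.log (x ^ θ)) / k) * x ≤ 4 * (C / ε * Real.sqrt θ) * x := by
    apply mul_le_mul_of_nonneg_right _ hx0.le
    calc C / ε * Real.sqrt ((1 + Real.log (x ^ θ)) / k) ≤ C / ε * (4 * Real.sqrt θ) :=
          mul_le_mul_of_nonneg_left hrate2 (by positivity)
      _ = 4 * (C / ε * Real.sqrt θ) := by ring
  -- the inclusion
  have hsub : cN {n : ℤ | ε * x ^ θ < ({h : ℤ | ρ ∣ h ∧ |(h : ℝ)| ≤ x ^ θ ∧ ¬ (n + h ∈ G ↔ n ∈ G)}.ncard : ℝ)} x ≤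
      cN {n : ℤ | ε * x ^ θ < ({h : ℤ | ρ ∣ h ∧ |(h : ℝ)| ≤ x ^ θ ∧ ¬ MM ρ k 0 n (n + h)}.ncard : ℝ)} x + Real.sqrt x := by
    have e1 : {n : ℤ | n ∈ {n : ℤ | ε * x ^ θ < ({h : ℤ | ρ ∣ h ∧ |(h : ℝ)| ≤ x ^ θ ∧
        ¬ (n + h ∈ G ↔ n ∈ G)}.ncard : ℝ)} ∧ 0 < n ∧ (n : ℝ) ≤ x} ⊆
        {n : ℤ | n ∈ {n : ℤ | ε * x ^ θ < ({h : ℤ | ρ ∣ h ∧ |(h : ℝ)| ≤ x ^ θ ∧ ¬ MM ρ k 0 n (n + h)}.ncard : ℝ)} ∧
          0 < n ∧ (n : ℝ) ≤ x} ∪ {n : ℤ | n ∈ (Set.univ : Set ℤ) ∧ 0 < n ∧ (n : ℝ) ≤ Real.sqrt x} := by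
      rintro n ⟨a1, a2, a3⟩
      by_cases h2 : (n : ℝ) ≤ Real.sqrt x
      · exact Or.inr ⟨Set.mem_univ n, a2, h2⟩
      · left
        refine ⟨?_, a2, a3⟩
        push Not at h2
        rw [Set.mem_ofPred_eq] at a1 ⊢
        refine lt_of_lt_of_le a1 (Nat.cast_le.2 (Set.ncard_le_ncard ?_ (finite54 _ _)))
        rintro h ⟨b1, b2, b3⟩
        refine ⟨b1, b2, fun hM => b3 ?_⟩
        have hh : |(h : ℝ)| ≤ q := b2.trans (by rw [hq]; exact hx2)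
        have hq2 : 2 * K ≤ q := by rw [hq]; exact hx5
        have hKq : 2 ^ k * K ≤ q * K := mul_le_mul_of_nonneg_right h2k (by linarith)
        have hq3 : q * K ≤ q * q / 2 := by nlinarith
        have hq4 : q ≤ q * q / 2 := by nlinarith
        have hg1 : (2 : ℝ) ^ k * (|(ρ : ℝ)| + |(z : ℝ)| + 1) ≤ n := by
          rw [← hK]
          nlinarith
        have hg2 : (2 : ℝ) ^ k * (|(ρ : ℝ)| + |(z : ℝ)| + 1) ≤ ((n + h : ℤ) : ℝ) := by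
          rw [← hK]
          push_cast
          have := neg_abs_le (h : ℝ)
          linarith
        rw [mem_iter54 hρ hG hg2, mem_iter54 hρ hG hg1, hM.1]
    have e2 := (Set.ncard_le_ncard e1 ((finite_cN _ x).union (finite_cN _ _))).trans (Set.ncard_union_le _ _)
    have e3 : cN {n : ℤ | ε * x ^ θ < ({h : ℤ | ρ ∣ h ∧ |(h : ℝ)| ≤ x ^ θ ∧ ¬ (n + h ∈ G ↔ n ∈ G)}.ncard : ℝ)} x ≤
      cN {n : ℤ | ε * x ^ θ < ({h : ℤ | ρ ∣ h ∧ |(h : ℝ)| ≤ x ^ θ ∧ ¬ MM ρ k 0 n (n + h)}.ncard : ℝ)} x +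
        cN Set.univ (Real.sqrt x) := by
      unfold cN
      exact_mod_cast e2
    have e4 := cN_le Set.univ (x := Real.sqrt x) (by positivity)
    linarith
  have hs1 : Real.sqrt x ≤ C / ε * Real.sqrt θ * x := by
    have h1 : 1 ≤ C / ε * Real.sqrt θ * Real.sqrt x := by
      rw [div_le_iff₀ (by positivity)] at hx4
      have h2 : C / ε * Real.sqrt θ * Real.sqrt x = Real.sqrt x * (C * Real.sqrt θ) / ε := by
        field_simp
      rw [h2, le_div_iff₀ hε]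
      linarith
    calc Real.sqrt x = 1 * Real.sqrt x := (one_mul _).symm
      _ ≤ (C / ε * Real.sqrt θ * Real.sqrt x) * Real.sqrt x := mul_le_mul_of_nonneg_right h1 hsx.le
      _ = C / ε * Real.sqrt θ * x := by rw [mul_assoc, hsxx]
  have hfin : 6 * (C / ε * Real.sqrt θ) * x ≤ C' / ε * Real.sqrt θ * x := by
    apply mul_le_mul_of_nonneg_right _ hx0.le
    have h1 : 6 * (C / ε * Real.sqrt θ) = 6 * C / ε * Real.sqrt θ := by ring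
    rw [h1]
    apply mul_le_mul_of_nonneg_right _ hsθ.le
    exact div_le_div_of_nonneg_right hC1 hε.le
  have hpos : 0 ≤ C / ε * Real.sqrt θ * x := by positivity
  linarith

end Pool.Agent.Helper54.GA
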