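import Pool.Agent.Helper54.GA.Stmts

/-!
Block G3: lower bound for the number of the windows which have not merged.
-/

set_option autoImplicit false

namespace Pool.Agent.Helper54.GA

open Pool.Agent.Helper68.Moeller Pool.Agent.Helper8 Pool.Agent.Helper8.CO Pool.Agent.Helper8.ND Filter Topology

variable {ρ : ℤ}

private theorem cnt_add54 (t k : ℕ) (x : ℤ) :
    cnt 2 3 (fun _ => ρ) (t + k) x =
      cnt 2 3 (fun _ => ρ) t x + cnt 2 3 (fun _ => ρ) k ((T 2 3 (fun _ => ρ))^[t] x) := by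
  induction t generalizing x with
  | zero => simp [cnt]
  | succ t ih =>
    rw [Nat.succ_add, cnt, ih, cnt, Function.iterate_succ_apply]
    ring

private theorem zero54 (j : ℕ) : (T 2 3 (fun _ => ρ))^[j] 0 = 0 ∧ cnt 2 3 (fun _ => ρ) j 0 = 0 := by
  have h0 : T 2 3 (fun _ => ρ) 0 = 0 := by
    unfold T
    rw [if_pos (dvd_zero _)]
    simp
  induction j with
  | zero => exact ⟨rfl, rfl⟩
  | succ j ih =>
    refine ⟨?_, ?_⟩
    · rw [Function.iterate_succ_apply, h0]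
      exact ih.1
    · rw [cnt, if_pos (dvd_zero _), h0, ih.2]

private theorem rho54 (hρ : Odd ρ) (j : ℕ) : (T 2 3 (fun _ => ρ))^[j] ρ = ρ ∧ cnt 2 3 (fun _ => ρ) j ρ = j := by
  have hnd : ¬ ((2 : ℕ) : ℤ) ∣ ρ := by
    intro h
    exact (Int.not_even_iff_odd.2 hρ) (even_iff_two_dvd.2 (by exact_mod_cast h))
  have h0 : T 2 3 (fun _ => ρ) ρ = ρ := by
    unfold T
    rw [if_neg hnd]
    have e : ((3 : ℕ) : ℤ) * ρ - ρ = ((2 : ℕ) : ℤ) * ρ := by push_cast; ring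
    rw [e]
    exact Int.mul_ediv_cancel_left ρ (by norm_num)
  induction j with
  | zero => exact ⟨rfl, rfl⟩
  | succ j ih =>
    refine ⟨?_, ?_⟩
    · rw [Function.iterate_succ_apply, h0]
      exact ih.1
    · rw [cnt, if_neg hnd, h0, ih.2]
      ring

/-- The pair `y ≡ 0`, `y + ρ`. -/
private theorem MM_shift54 (hρ : Odd ρ) (j k : ℕ) (z : ℤ) :
    MM ρ (j + k) 0 (2 ^ j * z) (2 ^ j * z + ρ) ↔ MM ρ k j z (3 ^ j * z + ρ * 1) := by
  obtain ⟨a1, a2⟩ := iter_add (ρ := ρ) hρ j 0 z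
  obtain ⟨b1, b2⟩ := iter_add (ρ := ρ) hρ j ρ z
  rw [(zero54 (ρ := ρ) j).1, (zero54 (ρ := ρ) j).2] at a1
  rw [(zero54 (ρ := ρ) j).2] at a2
  rw [(rho54 hρ j).1, (rho54 hρ j).2] at b1
  rw [(rho54 hρ j).2] at b2
  have a1' : (T 2 3 (fun _ => ρ))^[j] (2 ^ j * z) = z := by
    rw [zero_add] at a1
    rw [a1]
    ring
  have a2' : cnt 2 3 (fun _ => ρ) j (2 ^ j * z) = 0 := by
    rw [zero_add] at a2
    exact a2
  have b1' : (T 2 3 (fun _ => ρ))^[j] (2 ^ j * z + ρ) = 3 ^ j * z + ρ * 1 := by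
    rw [add_comm, b1]
    ring
  have b2' : cnt 2 3 (fun _ => ρ) j (2 ^ j * z + ρ) = j := by
    rw [add_comm]
    exact b2
  unfold MM
  rw [add_comm j k, Function.iterate_add_apply, Function.iterate_add_apply, a1', b1', add_comm k j, cnt_add54,
    cnt_add54 (ρ := ρ) j k (2 ^ j * z + ρ), a1', a2', b1', b2']
  constructor
  · rintro ⟨h1, h2⟩
    exact ⟨h1, by omega⟩
  · rintro ⟨h1, h2⟩
    exact ⟨h1, by omega⟩

open Classical in
/-- The count. -/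
private theorem count54 (h3a : StmtG3a) (hρ : Odd ρ) {k₀ : ℕ}
    (h3b : ∀ (k : ℕ) (n : ℤ), k₀ ≤ k → (7 / 2 : ℝ) ^ k ≤ n →
      (T 2 3 (fun _ => ρ))^[k] n = (T 2 3 (fun _ => ρ))^[k] (n + ρ) → MM ρ k 0 n (n + ρ))
    {j k' : ℕ} {x w : ℝ} (hk : k₀ ≤ j + k')
    (h8 : 8 * |(ρ : ℝ)| * 2 ^ (j + k') ≤ x) (h7 : 4 * (7 / 2 : ℝ) ^ (j + k') ≤ x)
    (hw : |(ρ : ℝ)| * 2 ^ j ≤ w) :
    x / 8 * uu k' (j, 1) ≤
    cN {n : ℤ | ∃ h : ℤ, ρ ∣ h ∧ |(h : ℝ)| ≤ w ∧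
      (T 2 3 (fun _ => ρ))^[j + k'] (n + h) ≠ (T 2 3 (fun _ => ρ))^[j + k'] n} x := by
  have hρ0 : ρ ≠ 0 := by
    rintro rfl
    exact absurd hρ (by decide)
  have hρ1 : (1 : ℝ) ≤ |(ρ : ℝ)| := by
    have : (1 : ℤ) ≤ |ρ| := Int.one_le_abs hρ0
    exact_mod_cast this
  obtain ⟨K, hK⟩ : ∃ K : ℝ, K = 2 ^ (j + k') := ⟨_, rfl⟩
  have hK1 : 1 ≤ K := by rw [hK]; exact one_le_pow₀ (by norm_num)
  have hK0 : 0 < K := by linarith
  have hK8 : 8 * K ≤ x := by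
    have : 8 * 1 * K ≤ 8 * |(ρ : ℝ)| * K := by
      apply mul_le_mul_of_nonneg_right _ hK0.le
      linarith
    rw [hK] at this ⊢
    linarith
  have hx0 : 0 < x := by linarith
  obtain ⟨i₀, hi₀⟩ : ∃ i₀ : ℕ, i₀ = ⌈x / (4 * K)⌉₊ := ⟨_, rfl⟩
  obtain ⟨I, hI⟩ : ∃ I : ℕ, I = ⌊x / (4 * K)⌋₊ := ⟨_, rfl⟩
  have hq0 : 0 ≤ x / (4 * K) := by positivity
  have hi1 : x / (4 * K) ≤ i₀ := by rw [hi₀]; exact Nat.le_ceil _
  have hi2 : (i₀ : ℝ) < x / (4 * K) + 1 := by rw [hi₀]; exact Nat.ceil_lt_add_one hq0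
  have hI1 : (I : ℝ) ≤ x / (4 * K) := by rw [hI]; exact Nat.floor_le hq0
  have hI2 : x / (4 * K) < I + 1 := by rw [hI]; exact Nat.lt_floor_add_one _
  have hxK : x / (4 * K) * K = x / 4 := by field_simp
  -- the bad classes
  obtain ⟨S, hS⟩ : ∃ S : Finset ℕ, S = (Finset.range (2 ^ k')).filter
    (fun y : ℕ => ¬ MM ρ k' j (y : ℤ) (3 ^ j * (y : ℤ) + ρ * 1)) := ⟨_, rfl⟩
  have hScard : (2 : ℝ) ^ k' * uu k' (j, 1) ≤ (S.card : ℝ) := by
    have := h3a ρ hρ k' j 1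
    rw [hS]
    convert this
  -- the map
  let φ : (ℕ × ℕ) × ℕ → ℤ := fun p => 2 ^ j * ((p.1.2 : ℤ) + 2 ^ k' * ((i₀ + p.1.1 : ℕ) : ℤ)) - ρ * (p.2 : ℤ)
  have hφ : ∀ p, φ p = 2 ^ j * ((p.1.2 : ℤ) + 2 ^ k' * ((i₀ + p.1.1 : ℕ) : ℤ)) - ρ * (p.2 : ℤ) := fun p => rfl
  obtain ⟨D, hD⟩ : ∃ D : Finset ((ℕ × ℕ) × ℕ), D = (Finset.range I ×ˢ S) ×ˢ Finset.range (2 ^ j) := ⟨_, rfl⟩
  have hDmem : ∀ p ∈ D, p.1.1 < I ∧ p.1.2 < 2 ^ k' ∧ ¬ MM ρ k' j (p.1.2 : ℤ) (3 ^ j * (p.1.2 : ℤ) + ρ * 1) ∧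
      p.2 < 2 ^ j := by
    intro p hp
    rw [hD, Finset.mem_product, Finset.mem_product, hS, Finset.mem_filter, Finset.mem_range, Finset.mem_range,
      Finset.mem_range] at hp
    exact ⟨hp.1.1, hp.1.2.1, hp.1.2.2, hp.2⟩
  have hinj : Set.InjOn φ (D : Set ((ℕ × ℕ) × ℕ)) := by
    rintro ⟨⟨i, y⟩, η⟩ hp ⟨⟨i', y'⟩, η'⟩ hp' heq
    obtain ⟨b1, b2, -, b4⟩ := hDmem _ (Finset.mem_coe.1 hp)
    obtain ⟨c1, c2, -, c4⟩ := hDmem _ (Finset.mem_coe.1 hp')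
    simp only at b1 b2 b4 c1 c2 c4
    simp only [hφ] at heq
    -- the last coordinate
    have hdvd : (2 : ℤ) ^ j ∣ ρ * ((η' : ℤ) - η) := by
      refine ⟨((y' : ℤ) + 2 ^ k' * ((i₀ + i' : ℕ) : ℤ)) - ((y : ℤ) + 2 ^ k' * ((i₀ + i : ℕ) : ℤ)), ?_⟩
      linear_combination heq
    have hcop : IsCoprime ((2 : ℤ) ^ j) ρ := by
      apply IsCoprime.pow_left
      obtain ⟨m, hm⟩ := hρ
      exact ⟨-m, 1, by rw [hm]; ring⟩
    have hdvd2 : (2 : ℤ) ^ j ∣ (η' : ℤ) - η := hcop.dvd_of_dvd_mul_left hdvd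
    have hηη : η = η' := by
      have d1 : |(η' : ℤ) - η| < 2 ^ j := by
        have e1 : (η : ℤ) < 2 ^ j := by exact_mod_cast b4
        have e2 : (η' : ℤ) < 2 ^ j := by exact_mod_cast c4
        rw [abs_lt]
        constructor <;> omega
      have := Int.eq_zero_of_abs_lt_dvd hdvd2 d1
      omega
    subst hηη
    have h2 : (y : ℤ) + 2 ^ k' * ((i₀ + i : ℕ) : ℤ) = (y' : ℤ) + 2 ^ k' * ((i₀ + i' : ℕ) : ℤ) := by
      have hp2 : (2 : ℤ) ^ j ≠ 0 := by positivity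
      apply mul_left_cancel₀ hp2
      linear_combination heq
    have h3 : y + 2 ^ k' * (i₀ + i) = y' + 2 ^ k' * (i₀ + i') := by exact_mod_cast h2
    have h4 : y = y' := by
      have e1 : (y + 2 ^ k' * (i₀ + i)) % 2 ^ k' = y := by
        rw [Nat.add_mul_mod_self_left, Nat.mod_eq_of_lt b2]
      have e2 : (y' + 2 ^ k' * (i₀ + i')) % 2 ^ k' = y' := by
        rw [Nat.add_mul_mod_self_left, Nat.mod_eq_of_lt c2]
      rw [← e1, ← e2, h3]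
    subst h4
    have h5 : 2 ^ k' * (i₀ + i) = 2 ^ k' * (i₀ + i') := by omega
    have h6 : i₀ + i = i₀ + i' := Nat.eq_of_mul_eq_mul_left (by positivity) h5
    have h7 : i = i' := by omega
    rw [h7]
  have himg : ∀ p ∈ D, φ p ∈ {n : ℤ | n ∈ {n : ℤ | ∃ h : ℤ, ρ ∣ h ∧ |(h : ℝ)| ≤ w ∧
      (T 2 3 (fun _ => ρ))^[j + k'] (n + h) ≠ (T 2 3 (fun _ => ρ))^[j + k'] n} ∧ 0 < n ∧ (n : ℝ) ≤ x} := by
    intro p hp
    obtain ⟨b1, b2, b3, b4⟩ := hDmem p hp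
    obtain ⟨z, hz⟩ : ∃ z : ℤ, z = (p.1.2 : ℤ) + 2 ^ k' * ((i₀ + p.1.1 : ℕ) : ℤ) := ⟨_, rfl⟩
    have hnz : φ p = 2 ^ j * z - ρ * (p.2 : ℤ) := by rw [hφ, hz]
    have hb4 : ((p.2 : ℕ) : ℝ) + 1 ≤ 2 ^ j := by exact_mod_cast b4
    have hb2 : ((p.1.2 : ℕ) : ℝ) < 2 ^ k' := by exact_mod_cast b2
    have hb1 : ((p.1.1 : ℕ) : ℝ) + 1 ≤ I := by exact_mod_cast b1
    have hp2 : (0 : ℝ) < 2 ^ j := by positivity
    have hpk : (0 : ℝ) < 2 ^ k' := by positivity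
    have hKe : K = 2 ^ j * 2 ^ k' := by rw [hK, pow_add]
    have hzR : (z : ℝ) = (p.1.2 : ℕ) + 2 ^ k' * ((i₀ : ℝ) + (p.1.1 : ℕ)) := by
      rw [hz]
      push_cast
      ring
    have hy0 : (2 : ℝ) ^ j * z = 2 ^ j * (p.1.2 : ℕ) + K * ((i₀ : ℝ) + (p.1.1 : ℕ)) := by
      rw [hzR, hKe]
      ring
    have hlow : x / 4 ≤ 2 ^ j * (z : ℝ) := by
      rw [hy0, ← hxK]
      have h1 : K * (x / (4 * K)) ≤ K * ((i₀ : ℝ) + (p.1.1 : ℕ)) := by
        apply mul_le_mul_of_nonneg_left _ hK0.le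
        have : (0 : ℝ) ≤ (p.1.1 : ℕ) := Nat.cast_nonneg _
        linarith
      have h2 : (0 : ℝ) ≤ 2 ^ j * (p.1.2 : ℕ) := by positivity
      linarith
    have hupp : (2 : ℝ) ^ j * z ≤ x / 2 + K := by
      rw [hy0]
      have h1 : (2 : ℝ) ^ j * (p.1.2 : ℕ) ≤ K := by
        rw [hKe]
        exact mul_le_mul_of_nonneg_left hb2.le hp2.le
      have h2 : K * ((i₀ : ℝ) + (p.1.1 : ℕ)) ≤ K * (x / (4 * K) + 1 + (x / (4 * K) - 1)) := by
        apply mul_le_mul_of_nonneg_left _ hK0.le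
        linarith
      have h3 : K * (x / (4 * K) + 1 + (x / (4 * K) - 1)) = x / 2 := by field_simp; ring
      linarith
    have hρη : |((ρ * (p.2 : ℤ) : ℤ) : ℝ)| ≤ |(ρ : ℝ)| * 2 ^ j := by
      push_cast
      rw [abs_mul]
      apply mul_le_mul_of_nonneg_left _ (abs_nonneg _)
      rw [Nat.abs_cast]
      linarith
    have hρη1 : |((ρ * ((p.2 : ℤ) + 1) : ℤ) : ℝ)| ≤ |(ρ : ℝ)| * 2 ^ j := by
      push_cast
      rw [abs_mul]
      apply mul_le_mul_of_nonneg_left _ (abs_nonneg _)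
      rw [abs_of_nonneg (by positivity)]
      exact hb4
    have hρj : |(ρ : ℝ)| * 2 ^ j ≤ x / 8 := by
      have h1 : |(ρ : ℝ)| * 2 ^ j ≤ |(ρ : ℝ)| * K := by
        apply mul_le_mul_of_nonneg_left _ (abs_nonneg _)
        rw [hKe]
        have : (1 : ℝ) ≤ 2 ^ k' := one_le_pow₀ (by norm_num)
        nlinarith
      rw [hK] at h1
      linarith
    have hnR : ((φ p : ℤ) : ℝ) = 2 ^ j * z - ((ρ * (p.2 : ℤ) : ℤ) : ℝ) := by
      rw [hnz]
      push_cast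
      ring
    obtain ⟨g1, g2⟩ := abs_le.1 hρη
    refine ⟨?_, ?_, ?_⟩
    · -- the window
      have hnMM : ¬ MM ρ (j + k') 0 (2 ^ j * z) (2 ^ j * z + ρ) := by
        rw [MM_shift54 hρ]
        have := MM_periodic hρ k' j 1 (p.1.2 : ℤ) ((i₀ + p.1.1 : ℕ) : ℤ)
        rw [← hz] at this
        rw [this]
        exact b3
      have hne : (T 2 3 (fun _ => ρ))^[j + k'] (2 ^ j * z) ≠ (T 2 3 (fun _ => ρ))^[j + k'] (2 ^ j * z + ρ) := by
        intro h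
        apply hnMM
        apply h3b _ _ hk _ h
        push_cast
        linarith
      have e1 : φ p + ρ * (p.2 : ℤ) = 2 ^ j * z := by rw [hnz]; ring
      have e2 : φ p + ρ * ((p.2 : ℤ) + 1) = 2 ^ j * z + ρ := by rw [hnz]; ring
      by_cases hcase : (T 2 3 (fun _ => ρ))^[j + k'] (2 ^ j * z) = (T 2 3 (fun _ => ρ))^[j + k'] (φ p)
      · refine ⟨ρ * ((p.2 : ℤ) + 1), dvd_mul_right _ _, hρη1.trans hw, ?_⟩
        rw [e2]
        intro h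
        exact hne (hcase.trans h.symm)
      · refine ⟨ρ * (p.2 : ℤ), dvd_mul_right _ _, hρη.trans hw, ?_⟩
        rw [e1]
        exact hcase
    · have : (0 : ℝ) < ((φ p : ℤ) : ℝ) := by
        rw [hnR]
        linarith
      exact_mod_cast this
    · rw [hnR]
      linarith
  have hfin : {n : ℤ | n ∈ {n : ℤ | ∃ h : ℤ, ρ ∣ h ∧ |(h : ℝ)| ≤ w ∧
      (T 2 3 (fun _ => ρ))^[j + k'] (n + h) ≠ (T 2 3 (fun _ => ρ))^[j + k'] n} ∧ 0 < n ∧ (n : ℝ) ≤ x}.Finite :=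
    finite_cN _ x
  have hcard : (D.card : ℝ) ≤ cN {n : ℤ | ∃ h : ℤ, ρ ∣ h ∧ |(h : ℝ)| ≤ w ∧
      (T 2 3 (fun _ => ρ))^[j + k'] (n + h) ≠ (T 2 3 (fun _ => ρ))^[j + k'] n} x := by
    unfold cN
    rw [← Finset.card_image_of_injOn hinj, ← Set.ncard_coe_finset]
    refine Nat.cast_le.2 (Set.ncard_le_ncard ?_ hfin)
    intro n hn
    rw [Finset.mem_coe, Finset.mem_image] at hn
    obtain ⟨p, hp, rfl⟩ := hn
    exact himg p hp
  refine le_trans ?_ hcard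
  rw [hD, Finset.card_product, Finset.card_product, Finset.card_range, Finset.card_range]
  push_cast
  have hI3 : x / (8 * K) ≤ I := by
    have h1 : x / (4 * K) = x / (8 * K) + x / (8 * K) := by field_simp; ring
    have h2 : 1 ≤ x / (8 * K) := by
      rw [le_div_iff₀ (by positivity)]
      linarith
    linarith
  have hu0 := uu_nonneg k' (j, 1)
  have hKe : K = 2 ^ j * 2 ^ k' := by rw [hK, pow_add]
  calc x / 8 * uu k' (j, 1) = x / (8 * K) * (2 ^ k' * uu k' (j, 1)) * 2 ^ j := by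
        rw [hKe]
        field_simp
    _ ≤ (I : ℝ) * (S.card : ℝ) * 2 ^ j := by
        apply mul_le_mul_of_nonneg_right _ (by positivity)
        exact mul_le_mul hI3 hScard (by positivity) (Nat.cast_nonneg _)

/-- The chain from `(j, 1)`. -/
private theorem start54 (h2 : StmtG2) : ∃ c : ℝ, 0 < c ∧ ∀ (k j : ℕ), 2 ≤ k →
    c * min 1 ((max j 1 : ℕ) / Real.sqrt k) ≤ uu k (j, 1) := by
  obtain ⟨c, hc, h⟩ := h2 1 zero_le_one
  have hqq : ∀ (j : ℕ) (b : ℤ), 1 ≤ j → |(b : ℝ)| ≤ 3 → qq (j, b) ≤ 1 := by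
    intro j b hj hb
    unfold qq Zs
    rw [Real.sqrt_le_iff]
    refine ⟨zero_le_one, ?_⟩
    rw [one_pow, div_le_one (by positivity)]
    have h3 : (3 : ℝ) ^ 1 ≤ 3 ^ j := pow_le_pow_right₀ (by norm_num) hj
    simp only
    linarith
  refine ⟨c, hc, fun k j hk => ?_⟩
  rcases Nat.eq_zero_or_pos j with rfl | hj
  · obtain ⟨k, rfl⟩ := Nat.exists_eq_add_of_le' (by omega : 1 ≤ k)
    have hk1 : 1 ≤ k := by omega
    have e0 : nx0 (0, 1) = (1, 1) := by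
      rw [nx0_odd (by decide)]
      rfl
    have e1 : nx1 (0, 1) = (1, -2) := by
      rw [nx1_odd_zero (by decide)]
      rfl
    rw [uu_succ, av, e0, e1]
    have h3 := h k (1, 1) hk1 le_rfl (hqq 1 1 le_rfl (by norm_num))
    have h4 := h k (1, -2) hk1 le_rfl (hqq 1 (-2) le_rfl (by norm_num))
    have h5 : min 1 (((max 0 1 : ℕ) : ℝ) / Real.sqrt ((k + 1 : ℕ) : ℝ)) ≤ min 1 (((1 : ℕ) : ℝ) / Real.sqrt k) := by
      apply min_le_min_left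
      have : ((max 0 1 : ℕ) : ℝ) = ((1 : ℕ) : ℝ) := by norm_num
      rw [this]
      apply div_le_div_of_nonneg_left (by norm_num)
      · exact Real.sqrt_pos.2 (by exact_mod_cast hk1)
      · apply Real.sqrt_le_sqrt
        push_cast
        linarith
    have h6 := mul_le_mul_of_nonneg_left h5 hc.le
    simp only at h3 h4
    linarith
  · have e : max j 1 = j := max_eq_left hj
    rw [e]
    exact h k (j, 1) (by omega) hj (hqq j 1 hj (by norm_num))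

theorem g3 (h2 : StmtG2) (h3a : StmtG3a) (h3b : StmtG3b) : StmtG3 := by
  intro ρ hρ
  have hρ0 : ρ ≠ 0 := by
    rintro rfl
    exact absurd hρ (by decide)
  have hρ1 : (1 : ℝ) ≤ |(ρ : ℝ)| := by
    have : (1 : ℤ) ≤ |ρ| := Int.one_le_abs hρ0
    exact_mod_cast this
  have hρp : (0 : ℝ) < |(ρ : ℝ)| := by linarith
  have hl2 : 0 < Real.log 2 := Real.log_pos (by norm_num)
  have hl21 : Real.log 2 ≤ 1 := by linarith [Real.log_two_lt_d9]
  have hlρ : 0 ≤ Real.log |(ρ : ℝ)| := Real.log_nonneg hρ1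
  obtain ⟨k₀, hk₀⟩ := h3b ρ hρ
  obtain ⟨c, hc, hstart⟩ := start54 h2
  -- thresholds
  have hlimA : ∀ᶠ k : ℕ in atTop, 8 * |(ρ : ℝ)| ≤ (2 : ℝ) ^ k :=
    (tendsto_pow_atTop_atTop_of_one_lt (by norm_num : (1 : ℝ) < 2)).eventually_ge_atTop _
  have hlimB : ∀ᶠ k : ℕ in atTop, (4 : ℝ) ≤ (8 / 7 : ℝ) ^ k :=
    (tendsto_pow_atTop_atTop_of_one_lt (by norm_num : (1 : ℝ) < 8 / 7)).eventually_ge_atTop _
  obtain ⟨k₁, hk₁⟩ := eventually_atTop.1 (hlimA.and hlimB)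
  obtain ⟨A, hA⟩ : ∃ A : ℝ, A = 3 + Real.log |(ρ : ℝ)| := ⟨_, rfl⟩
  have hA3 : 3 ≤ A := by linarith
  refine ⟨c / (8 * A), max (max k₀ k₁) 16, by positivity, fun k x w hk hx hw => ?_⟩
  have hk0 : k₀ ≤ k := ((le_max_left _ _).trans (le_max_left _ _)).trans hk
  have hk1 : k₁ ≤ k := ((le_max_right _ _).trans (le_max_left _ _)).trans hk
  have hk16 : 16 ≤ k := (le_max_right _ _).trans hk
  obtain ⟨hA1, hB1⟩ := hk₁ k hk1
  have hkR : (16 : ℝ) ≤ k := by exact_mod_cast hk16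
  have hk0R : (0 : ℝ) < k := by linarith
  have hsk : 0 < Real.sqrt k := Real.sqrt_pos.2 hk0R
  have hsk4 : 4 ≤ Real.sqrt k := by
    apply Real.le_sqrt_of_sq_le
    linarith
  have hskk : Real.sqrt k * Real.sqrt k = k := Real.mul_self_sqrt hk0R.le
  have hw1 : 1 ≤ w := hρ1.trans hw
  have hw0 : 0 < w := by linarith
  have hx0 : 0 < x := lt_of_lt_of_le (by positivity) hx
  -- the level
  obtain ⟨Λ, hΛ⟩ : ∃ Λ : ℝ, Λ = Real.log (w / |(ρ : ℝ)|) / Real.log 2 := ⟨_, rfl⟩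
  have hΛ0 : 0 ≤ Λ := by
    rw [hΛ]
    apply div_nonneg _ hl2.le
    apply Real.log_nonneg
    rw [le_div_iff₀ hρp]
    linarith
  have hΛw : 1 + Real.log w ≤ 1 + Real.log |(ρ : ℝ)| + Λ := by
    have h1 : Real.log (w / |(ρ : ℝ)|) = Real.log w - Real.log |(ρ : ℝ)| := Real.log_div hw0.ne' hρp.ne'
    have h2 : Real.log (w / |(ρ : ℝ)|) = Λ * Real.log 2 := by
      rw [hΛ]
      field_simp
    have h3 : Λ * Real.log 2 ≤ Λ * 1 := mul_le_mul_of_nonneg_left hl21 hΛ0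
    linarith
  obtain ⟨j, hj⟩ : ∃ j : ℕ, j = min ⌊Λ⌋₊ ⌊Real.sqrt k⌋₊ := ⟨_, rfl⟩
  have hjΛ : (j : ℝ) ≤ Λ := by
    have h1 : (j : ℝ) ≤ (⌊Λ⌋₊ : ℝ) := by
      rw [hj]
      exact_mod_cast min_le_left _ _
    exact h1.trans (Nat.floor_le hΛ0)
  have hjk : (j : ℝ) ≤ Real.sqrt k := by
    have h1 : (j : ℝ) ≤ (⌊Real.sqrt k⌋₊ : ℝ) := by
      rw [hj]
      exact_mod_cast min_le_right _ _
    exact h1.trans (Nat.floor_le hsk.le)
  have hj2 : j + 2 ≤ k := by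
    have h1 : (j : ℝ) + 2 ≤ k := by nlinarith
    exact_mod_cast h1
  obtain ⟨k', hk'⟩ := Nat.exists_eq_add_of_le (by omega : j ≤ k)
  have hk'2 : 2 ≤ k' := by omega
  have hwj : |(ρ : ℝ)| * 2 ^ j ≤ w := by
    have h1 : (2 : ℝ) ^ j ≤ w / |(ρ : ℝ)| := by
      rw [← Real.log_le_log_iff (by positivity) (by positivity), Real.log_pow]
      rw [hΛ, le_div_iff₀ hl2] at hjΛ
      exact hjΛ
    rw [le_div_iff₀ hρp] at h1
    linarith
  have h4k : (4 : ℝ) ^ k = 2 ^ k * 2 ^ k := by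
    rw [← mul_pow]
    norm_num
  have h8 : 8 * |(ρ : ℝ)| * 2 ^ k ≤ x := by
    refine le_trans ?_ hx
    rw [h4k]
    exact mul_le_mul_of_nonneg_right hA1 (by positivity)
  have h7 : 4 * (7 / 2 : ℝ) ^ k ≤ x := by
    refine le_trans ?_ hx
    have e : (4 : ℝ) ^ k = (8 / 7) ^ k * (7 / 2) ^ k := by
      rw [← mul_pow]
      norm_num
    rw [e]
    exact mul_le_mul_of_nonneg_right hB1 (by positivity)
  subst hk'
  have hmain := count54 h3a hρ hk₀ hk0 h8 h7 hwj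
  refine le_trans ?_ hmain
  -- the comparison
  have hs := hstart k' j hk'2
  have hjm : (1 : ℝ) ≤ ((max j 1 : ℕ) : ℝ) := by exact_mod_cast le_max_right _ _
  have hsk' : Real.sqrt k' ≤ Real.sqrt ((j + k' : ℕ) : ℝ) := by
    apply Real.sqrt_le_sqrt
    push_cast
    linarith [(Nat.cast_nonneg j : (0 : ℝ) ≤ j)]
  have hsk'0 : 0 < Real.sqrt k' := Real.sqrt_pos.2 (by
    have : (2 : ℝ) ≤ k' := by exact_mod_cast hk'2
    linarith)
  have h9 : min 1 (((max j 1 : ℕ) : ℝ) / Real.sqrt ((j + k' : ℕ) : ℝ)) ≤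
      min 1 (((max j 1 : ℕ) : ℝ) / Real.sqrt k') := by
    apply min_le_min_left
    exact div_le_div_of_nonneg_left (by linarith) hsk'0 hsk'
  have h10 : min 1 ((1 + Real.log w) / Real.sqrt ((j + k' : ℕ) : ℝ)) ≤
      A * min 1 (((max j 1 : ℕ) : ℝ) / Real.sqrt ((j + k' : ℕ) : ℝ)) := by
    rcases le_total ⌊Λ⌋₊ ⌊Real.sqrt ((j + k' : ℕ) : ℝ)⌋₊ with hc1 | hc1
    · -- the level is given by the window
      have hje : j = ⌊Λ⌋₊ := by rw [hj]; exact min_eq_left hc1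
      have h11 : Λ < j + 1 := by rw [hje]; exact Nat.lt_floor_add_one Λ
      have h12 : (j : ℝ) ≤ ((max j 1 : ℕ) : ℝ) := by exact_mod_cast le_max_left _ _
      have h13 : 1 + Real.log w ≤ A * ((max j 1 : ℕ) : ℝ) := by
        have h14 : (1 + Real.log |(ρ : ℝ)|) * 1 ≤ (1 + Real.log |(ρ : ℝ)|) * ((max j 1 : ℕ) : ℝ) :=
          mul_le_mul_of_nonneg_left hjm (by linarith)
        rw [hA]
        nlinarith
      rw [mul_min_of_nonneg _ _ (by linarith : 0 ≤ A)]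
      apply min_le_min
      · linarith
      · rw [← mul_div_assoc]
        exact div_le_div_of_nonneg_right h13 hsk.le
    · -- the level is the root of the time
      have hje : j = ⌊Real.sqrt ((j + k' : ℕ) : ℝ)⌋₊ := hj.trans (min_eq_right hc1)
      have h11 : Real.sqrt ((j + k' : ℕ) : ℝ) < j + 1 := by
        have := Nat.lt_floor_add_one (Real.sqrt ((j + k' : ℕ) : ℝ))
        rw [← hje] at this
        exact this
      have h12 : (j : ℝ) ≤ ((max j 1 : ℕ) : ℝ) := by exact_mod_cast le_max_left _ _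
      have h13 : 1 / 2 ≤ ((max j 1 : ℕ) : ℝ) / Real.sqrt ((j + k' : ℕ) : ℝ) := by
        rw [le_div_iff₀ hsk]
        linarith
      have h14 : 1 / 2 ≤ min 1 (((max j 1 : ℕ) : ℝ) / Real.sqrt ((j + k' : ℕ) : ℝ)) :=
        le_min (by norm_num) h13
      refine (min_le_left _ _).trans ?_
      nlinarith
  have h11 : c * min 1 (((max j 1 : ℕ) : ℝ) / Real.sqrt ((j + k' : ℕ) : ℝ)) ≤ uu k' (j, 1) :=
    (mul_le_mul_of_nonneg_left h9 hc.le).trans hs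
  calc c / (8 * A) * min 1 ((1 + Real.log w) / Real.sqrt ((j + k' : ℕ) : ℝ)) * x
      ≤ c / (8 * A) * (A * min 1 (((max j 1 : ℕ) : ℝ) / Real.sqrt ((j + k' : ℕ) : ℝ))) * x := by
        apply mul_le_mul_of_nonneg_right _ hx0.le
        exact mul_le_mul_of_nonneg_left h10 (by positivity)
    _ = x / 8 * (c * min 1 (((max j 1 : ℕ) : ℝ) / Real.sqrt ((j + k' : ℕ) : ℝ))) := by
        have hA0 : A ≠ 0 := by linarith
        field_simp
    _ ≤ x / 8 * uu k' (j, 1) := mul_le_mul_of_nonneg_left h11 (by linarith)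

end Pool.Agent.Helper54.GA
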