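import Pool.Agent.Helper54.GA.Stmts2
import Pool.Agent.Helper54.GA.G56

/-!
Block G9: for invariant sets almost all windows of the size `x ^ (o (1))` are almost empty or almost full.
-/

set_option autoImplicit false

namespace Pool.Agent.Helper54.GA

open Pool.Agent.Helper68.Moeller Pool.Agent.Helper8 Pool.Agent.Helper8.CO Pool.Agent.Helper8.ND Pool.Agent.Helper28
  Filter Topology

variable {ρ : ℤ}

/-- The multiples of `ρ` in an interval. -/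
theorem finite54 (w : ℝ) (P : ℤ → Prop) : {h : ℤ | ρ ∣ h ∧ |(h : ℝ)| ≤ w ∧ P h}.Finite := by
  refine (Finset.finite_toSet (Finset.Icc (-⌊w⌋) ⌊w⌋)).subset ?_
  rintro h ⟨-, h2, -⟩
  obtain ⟨h3, h4⟩ := abs_le.1 h2
  rw [Finset.mem_coe, Finset.mem_Icc]
  refine ⟨?_, Int.le_floor.2 h4⟩
  have h5 : -h ≤ ⌊w⌋ := Int.le_floor.2 (by push_cast; linarith)
  linarith

theorem g9 (h8 : StmtG8) : StmtG9 := by
  intro ρ hρ w hw G z hG ε hε
  obtain ⟨C, hC, hmain⟩ := h8 ρ hρ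
  have hl2 : 0 < Real.log 2 := Real.log_pos (by norm_num)
  have hl21 : Real.log 2 ≤ 1 := by linarith [Real.log_two_lt_d9]
  obtain ⟨K, hK⟩ : ∃ K : ℝ, K = |(ρ : ℝ)| + |(z : ℝ)| + 1 := ⟨_, rfl⟩
  have hK1 : 1 ≤ K := by
    have h1 := abs_nonneg (ρ : ℝ)
    have h2 := abs_nonneg (z : ℝ)
    linarith
  rw [Metric.tendsto_nhds]
  intro δ hδ
  obtain ⟨τ, hτ⟩ : ∃ τ : ℝ, τ = (δ * ε / (4 * C)) ^ 2 := ⟨_, rfl⟩
  have hτ0 : 0 < τ := by rw [hτ]; positivity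
  have hev1 := hw.2 (τ / 16) (by positivity)
  have hev2 := hw.2 (1 / 4) (by norm_num)
  have hev3 : ∀ᶠ x : ℝ in atTop, max 8 (16 / τ) ≤ Real.log x := Real.tendsto_log_atTop.eventually_ge_atTop _
  have hev4 : ∀ᶠ x : ℝ in atTop, 4 / δ ≤ Real.sqrt x := Real.tendsto_sqrt_atTop.eventually_ge_atTop _
  have hev5 : ∀ᶠ x : ℝ in atTop, 2 * K ≤ x ^ (1 / 4 : ℝ) :=
    (tendsto_rpow_atTop (by norm_num : (0 : ℝ) < 1 / 4)).eventually_ge_atTop _
  filter_upwards [hev1, hev2, hev3, hev4, hev5, eventually_gt_atTop (1 : ℝ)] with x hx1 hx2 hx3 hx4 hx5 hx6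
  have hx0 : 0 < x := by linarith
  obtain ⟨L, hL⟩ : ∃ L : ℝ, L = Real.log x := ⟨_, rfl⟩
  rw [← hL] at hx3
  have hL8 : 8 ≤ L := (le_max_left _ _).trans hx3
  have hLτ : 16 / τ ≤ L := (le_max_right _ _).trans hx3
  have hL0 : 0 < L := by linarith
  have hsx : 0 < Real.sqrt x := Real.sqrt_pos.2 hx0
  have hsxx : Real.sqrt x * Real.sqrt x = x := Real.mul_self_sqrt hx0.le
  obtain ⟨q, hq⟩ : ∃ q : ℝ, q = x ^ (1 / 4 : ℝ) := ⟨_, rfl⟩
  have hq0 : 0 < q := by rw [hq]; positivity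
  have hqq : q * q = Real.sqrt x := by
    rw [hq, ← Real.rpow_add hx0, Real.sqrt_eq_rpow]
    norm_num
  -- the time
  obtain ⟨k, hk⟩ : ∃ k : ℕ, k = ⌊L / (4 * Real.log 2)⌋₊ := ⟨_, rfl⟩
  have hk1 : (k : ℝ) ≤ L / (4 * Real.log 2) := by rw [hk]; exact Nat.floor_le (by positivity)
  have hk2 : L / (4 * Real.log 2) < k + 1 := by rw [hk]; exact Nat.lt_floor_add_one _
  have hk3 : L / 4 ≤ L / (4 * Real.log 2) := by
    apply div_le_div_of_nonneg_left hL0.le (by positivity)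
    linarith
  have hk4 : L / 8 ≤ k := by linarith
  have hkpos : 1 ≤ k := by
    have h2 : (1 : ℝ) ≤ k := by linarith
    exact_mod_cast h2
  have h2k : (2 : ℝ) ^ k ≤ q := by
    rw [← Real.log_le_log_iff (by positivity) hq0, Real.log_pow, hq, Real.log_rpow hx0, ← hL]
    rw [le_div_iff₀ (by positivity)] at hk1
    linarith
  have hqx : q ≤ x := by
    rw [hq]
    calc x ^ (1 / 4 : ℝ) ≤ x ^ (1 : ℝ) := Real.rpow_le_rpow_of_exponent_le hx6.le (by norm_num)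
      _ = x := Real.rpow_one x
  have hb := hmain k x (w x) ε hkpos (h2k.trans hqx) (hw.1 x) hε
  -- the rate
  have hw0 : 0 < w x := by linarith [hw.1 x]
  have hlw : Real.log (w x) ≤ τ / 16 * L := by
    have h1 := Real.log_le_log hw0 hx1
    rwa [Real.log_rpow hx0, ← hL] at h1
  have hk0 : (0 : ℝ) < k := by exact_mod_cast hkpos
  have hrate : (1 + Real.log (w x)) / k ≤ τ := by
    rw [div_le_iff₀ hk0]
    rw [div_le_iff₀ hτ0] at hLτ
    have h1 : τ * (L / 8) ≤ τ * k := mul_le_mul_of_nonneg_left hk4 hτ0.le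
    linarith
  have hrate2 : Real.sqrt ((1 + Real.log (w x)) / k) ≤ δ * ε / (4 * C) := by
    refine (Real.sqrt_le_sqrt hrate).trans (le_of_eq ?_)
    rw [hτ]
    exact Real.sqrt_sq (by positivity)
  have hb2 : C / ε * Real.sqrt ((1 + Real.log (w x)) / k) * x ≤ δ / 4 * x := by
    apply mul_le_mul_of_nonneg_right _ hx0.le
    calc C / ε * Real.sqrt ((1 + Real.log (w x)) / k) ≤ C / ε * (δ * ε / (4 * C)) :=
          mul_le_mul_of_nonneg_left hrate2 (by positivity)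
      _ = δ / 4 := by field_simp
  -- the inclusion
  have hsub : cN {n : ℤ | ε * w x < ({h : ℤ | ρ ∣ h ∧ |(h : ℝ)| ≤ w x ∧ ¬ (n + h ∈ G ↔ n ∈ G)}.ncard : ℝ)} x ≤
      cN {n : ℤ | ε * w x < ({h : ℤ | ρ ∣ h ∧ |(h : ℝ)| ≤ w x ∧ ¬ MM ρ k 0 n (n + h)}.ncard : ℝ)} x + Real.sqrt x := by
    have e1 : {n : ℤ | n ∈ {n : ℤ | ε * w x < ({h : ℤ | ρ ∣ h ∧ |(h : ℝ)| ≤ w x ∧
        ¬ (n + h ∈ G ↔ n ∈ G)}.ncard : ℝ)} ∧ 0 < n ∧ (n : ℝ) ≤ x} ⊆
        {n : ℤ | n ∈ {n : ℤ | ε * w x < ({h : ℤ | ρ ∣ h ∧ |(h : ℝ)| ≤ w x ∧ ¬ MM ρ k 0 n (n + h)}.ncard : ℝ)} ∧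
          0 < n ∧ (n : ℝ) ≤ x} ∪ {n : ℤ | n ∈ (Set.univ : Set ℤ) ∧ 0 < n ∧ (n : ℝ) ≤ Real.sqrt x} := by
      rintro n ⟨a1, a2, a3⟩
      by_cases h2 : (n : ℝ) ≤ Real.sqrt x
      · exact Or.inr ⟨Set.mem_univ n, a2, h2⟩
      · left
        refine ⟨?_, a2, a3⟩
        push Not at h2
        rw [Set.mem_ofPred_eq] at a1 ⊢
        refine lt_of_lt_of_le a1 (Nat.cast_le.2 (Set.ncard_le_ncard ?_ (finite54 _ _)))
        rintro h ⟨b1, b2, b3⟩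
        refine ⟨b1, b2, fun hM => b3 ?_⟩
        have hh : |(h : ℝ)| ≤ q := b2.trans (by rw [hq]; exact hx2)
        have hq2 : 2 * K ≤ q := by rw [hq]; exact hx5
        have hKq : 2 ^ k * K ≤ q * K := mul_le_mul_of_nonneg_right h2k (by linarith)
        have hq3 : q * K ≤ q * q / 2 := by nlinarith
        have hq4 : q ≤ q * q / 2 := by nlinarith
        have hg1 : (2 : ℝ) ^ k * (|(ρ : ℝ)| + |(z : ℝ)| + 1) ≤ n := by
          rw [← hK]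
          nlinarith
        have hg2 : (2 : ℝ) ^ k * (|(ρ : ℝ)| + |(z : ℝ)| + 1) ≤ ((n + h : ℤ) : ℝ) := by
          rw [← hK]
          push_cast
          have := neg_abs_le (h : ℝ)
          linarith
        rw [mem_iter54 hρ hG hg2, mem_iter54 hρ hG hg1, hM.1]
    have e2 := (Set.ncard_le_ncard e1 ((finite_cN _ x).union (finite_cN _ _))).trans (Set.ncard_union_le _ _)
    have e3 : cN {n : ℤ | ε * w x < ({h : ℤ | ρ ∣ h ∧ |(h : ℝ)| ≤ w x ∧ ¬ (n + h ∈ G ↔ n ∈ G)}.ncard : ℝ)} x ≤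
      cN {n : ℤ | ε * w x < ({h : ℤ | ρ ∣ h ∧ |(h : ℝ)| ≤ w x ∧ ¬ MM ρ k 0 n (n + h)}.ncard : ℝ)} x +
        cN Set.univ (Real.sqrt x) := by
      unfold cN
      exact_mod_cast e2
    have e4 := cN_le Set.univ (x := Real.sqrt x) (by positivity)
    linarith
  have hs1 : Real.sqrt x ≤ δ / 4 * x := by
    rw [div_le_iff₀ hδ] at hx4
    nlinarith
  rw [Real.dist_eq, sub_zero, abs_of_nonneg (div_nonneg (cN_nonneg _ _) hx0.le), div_lt_iff₀ hx0]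
  nlinarith

end Pool.Agent.Helper54.GA
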