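import Pool.Agent.Helper54.GA.Stmts3
import Pool.Agent.Helper54.GA.G56

/-!
Block M4: invariant sets are almost pure at all scales around almost all points.
-/

set_option autoImplicit false

namespace Pool.Agent.Helper54.GA

open Pool.Agent.Helper68.Moeller Pool.Agent.Helper8 Pool.Agent.Helper8.CO Pool.Agent.Helper8.ND Pool.Agent.Helper28
  Filter Topology

/-- The integers `≤ y`. -/
theorem cN_low54 {y x : ℝ} (hy : 0 ≤ y) : cN {n : ℤ | (n : ℝ) ≤ y} x ≤ y := by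
  have h3 : cN {n : ℤ | (n : ℝ) ≤ y} x ≤ cN {n : ℤ | (n : ℝ) ≤ y} y := by
    unfold cN
    refine Nat.cast_le.2 (Set.ncard_le_ncard ?_ (finite_cN _ _))
    rintro n ⟨a1, a2, -⟩
    exact ⟨a1, a2, a1⟩
  exact h3.trans (cN_le _ hy)

/-- An invariant set and a pair of points. -/
theorem pair54 {ρ : ℤ} (hρ : Odd ρ) {G : Set ℤ} {z : ℤ} (hG : ∀ n : ℤ, z < n → (n ∈ G ↔ T 2 3 (fun _ => ρ) n ∈ G))
    {k : ℕ} {q y : ℝ} (h2k : (2 : ℝ) ^ k ≤ q) (hq1 : 4 * (|(ρ : ℝ)| + |(z : ℝ)| + 1) ≤ q) {h : ℤ} (hh : |(h : ℝ)| ≤ 2 * q) :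
    cN {n : ℤ | ¬ (n + h ∈ G ↔ n ∈ G)} y ≤ cN {n : ℤ | ¬ MM ρ k 0 n (n + h)} y + q * q := by
  have ha1 := abs_nonneg (ρ : ℝ)
  have ha2 := abs_nonneg (z : ℝ)
  have hq4 : 4 ≤ q := by linarith
  have e1 : cN {n : ℤ | ¬ (n + h ∈ G ↔ n ∈ G)} y ≤
      cN {n : ℤ | ¬ MM ρ k 0 n (n + h)} y + cN {n : ℤ | (n : ℝ) ≤ q * q} y := by
    refine le_trans (POSB.cN_mono (fun n hn _ => ?_) y) (POSB.cN_union_le _ _ y)
    by_cases h2 : (n : ℝ) ≤ q * q
    · exact Or.inr h2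
    · left
      push Not at h2
      intro hM
      apply hn
      have hK1 : (2 : ℝ) ^ k * (|(ρ : ℝ)| + |(z : ℝ)| + 1) ≤ q * (q / 4) := by
        apply mul_le_mul h2k (by linarith) (by positivity) (by linarith)
      have hg1 : (2 : ℝ) ^ k * (|(ρ : ℝ)| + |(z : ℝ)| + 1) ≤ n := by nlinarith
      have hg2 : (2 : ℝ) ^ k * (|(ρ : ℝ)| + |(z : ℝ)| + 1) ≤ ((n + h : ℤ) : ℝ) := by
        push_cast
        have := neg_abs_le (h : ℝ)
        nlinarith
      rw [mem_iter54 hρ hG hg2, mem_iter54 hρ hG hg1, hM.1]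
  have e2 := cN_low54 (y := q * q) (x := y) (by positivity)
  linarith

theorem m4 (h2 : StmtM2) (h3 : StmtM3) : StmtM4 := by
  intro ρ hρ
  obtain ⟨C, hC, hmain⟩ := h2 ρ hρ
  have hρ0 : ρ ≠ 0 := by
    rintro rfl
    exact absurd hρ (by decide)
  have ha1 := abs_nonneg (ρ : ℝ)
  obtain ⟨C₁, hC₁⟩ : ∃ C₁ : ℝ, C₁ = 72 * |(ρ : ℝ)| * (8 * C + 1) + 2 := ⟨_, rfl⟩
  have hC₁0 : 2 ≤ C₁ := by
    rw [hC₁]
    have : 0 ≤ 72 * |(ρ : ℝ)| * (8 * C + 1) := by positivity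
    linarith
  refine ⟨C₁, by linarith, fun G z hG => ?_⟩
  have hl2 : 0 < Real.log 2 := Real.log_pos (by norm_num)
  have hl21 : Real.log 2 ≤ 1 := by linarith [Real.log_two_lt_d9]
  have ha2 := abs_nonneg (z : ℝ)
  have hev3 : ∀ᶠ x : ℝ in atTop, 8 ≤ Real.log x := Real.tendsto_log_atTop.eventually_ge_atTop _
  have hev5 : ∀ᶠ x : ℝ in atTop, 4 * (|(ρ : ℝ)| + |(z : ℝ)| + 1) ≤ x ^ (1 / 4 : ℝ) :=
    (tendsto_rpow_atTop (by norm_num : (0 : ℝ) < 1 / 4)).eventually_ge_atTop _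
  filter_upwards [hev3, hev5, eventually_gt_atTop (1 : ℝ)] with x hx3 hx5 hx6
  intro s ε hs hε hε1
  have hx0 : 0 < x := by linarith
  obtain ⟨L, hL⟩ : ∃ L : ℝ, L = Real.log x := ⟨_, rfl⟩
  rw [← hL] at hx3 ⊢
  have hL0 : 0 < L := by linarith
  have hLx : L ≤ x := by
    rw [hL]
    have := Real.log_le_sub_one_of_pos hx0
    linarith
  obtain ⟨q, hq⟩ : ∃ q : ℝ, q = x ^ (1 / 4 : ℝ) := ⟨_, rfl⟩
  rw [← hq] at hx5
  have hq0 : 0 < q := by rw [hq]; positivity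
  have hq4 : 4 ≤ q := by linarith
  have hqq : q * q = Real.sqrt x := by
    rw [hq, ← Real.rpow_add hx0, Real.sqrt_eq_rpow]
    norm_num
  have hlq : Real.log q = L / 4 := by
    rw [hq, Real.log_rpow hx0, ← hL]
    ring
  have hqx : q ≤ x := by
    rw [hq]
    calc x ^ (1 / 4 : ℝ) ≤ x ^ (1 : ℝ) := Real.rpow_le_rpow_of_exponent_le hx6.le (by norm_num)
      _ = x := Real.rpow_one x
  have hsx : 0 < Real.sqrt x := Real.sqrt_pos.2 hx0
  have hsxx : Real.sqrt x * Real.sqrt x = x := Real.mul_self_sqrt hx0.le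
  have hs0 : 0 ≤ Real.log s := Real.log_nonneg hs
  obtain ⟨R, hR⟩ : ∃ R : ℝ, R = Real.sqrt ((1 + Real.log s) / L) := ⟨_, rfl⟩
  rw [← hR]
  have hR0 : 0 ≤ R := by rw [hR]; exact Real.sqrt_nonneg _
  rcases le_or_gt s q with hsq | hsq
  swap
  · -- large windows
    refine (cN_le _ hx0.le).trans ?_
    have h4 : 1 / 2 ≤ R := by
      rw [hR]
      apply Real.le_sqrt_of_sq_le
      rw [le_div_iff₀ hL0]
      have h5 : L / 4 ≤ Real.log s := by
        rw [← hlq]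
        exact Real.log_le_log hq0 hsq.le
      norm_num
      linarith
    have h5 : 1 ≤ C₁ / ε * R := by
      have h6 : 2 ≤ C₁ / ε := by
        rw [le_div_iff₀ hε]
        nlinarith
      nlinarith
    nlinarith
  -- the time
  obtain ⟨k, hk⟩ : ∃ k : ℕ, k = ⌊L / (4 * Real.log 2)⌋₊ := ⟨_, rfl⟩
  have hk1 : (k : ℝ) ≤ L / (4 * Real.log 2) := by rw [hk]; exact Nat.floor_le (by positivity)
  have hk2 : L / (4 * Real.log 2) < k + 1 := by rw [hk]; exact Nat.lt_floor_add_one _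
  have hk3 : L / 4 ≤ L / (4 * Real.log 2) := by
    apply div_le_div_of_nonneg_left hL0.le (by positivity)
    linarith
  have hk4 : L / 8 ≤ k := by linarith
  have hkpos : 1 ≤ k := by
    have h2 : (1 : ℝ) ≤ k := by linarith
    exact_mod_cast h2
  have hk0 : (0 : ℝ) < k := by exact_mod_cast hkpos
  have h2k : (2 : ℝ) ^ k ≤ q := by
    rw [← Real.log_le_log_iff (by positivity) hq0, Real.log_pow, hlq]
    rw [le_div_iff₀ (by positivity)] at hk1
    linarith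
  -- the rate
  have hrate : Real.sqrt ((1 + Real.log (2 * s)) / k) ≤ 4 * R := by
    have e : 4 * R = Real.sqrt (16 * ((1 + Real.log s) / L)) := by
      rw [hR, Real.sqrt_mul (by norm_num), show (16 : ℝ) = 4 ^ 2 by norm_num, Real.sqrt_sq (by norm_num)]
    rw [e]
    apply Real.sqrt_le_sqrt
    rw [Real.log_mul (by norm_num) (by linarith), div_le_iff₀ hk0]
    have e2 : 16 * ((1 + Real.log s) / L) * (L / 8) = 2 * (1 + Real.log s) := by
      field_simp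
      norm_num
    have e3 : 16 * ((1 + Real.log s) / L) * (L / 8) ≤ 16 * ((1 + Real.log s) / L) * k :=
      mul_le_mul_of_nonneg_left hk4 (by positivity)
    linarith
  have hRx : Real.sqrt x ≤ R * x := by
    have h4 : 1 / Real.sqrt x ≤ R := by
      rw [hR, ← Real.sqrt_one, ← Real.sqrt_div (by norm_num), Real.sqrt_one]
      apply Real.sqrt_le_sqrt
      rw [div_le_div_iff₀ hx0 hL0]
      nlinarith
    calc Real.sqrt x = 1 / Real.sqrt x * (Real.sqrt x * Real.sqrt x) := by field_simp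
      _ = 1 / Real.sqrt x * x := by rw [hsxx]
      _ ≤ R * x := mul_le_mul_of_nonneg_right h4 hx0.le
  -- the bound for the pairs
  have hpair : ∀ h : ℤ, ρ ∣ h → |(h : ℝ)| ≤ 2 * s →
      cN {n : ℤ | ¬ (n + h ∈ G ↔ n ∈ G)} (2 * x) ≤ (8 * C + 1) * (R * x) := by
    intro h hρh hh
    have h4 := pair54 (y := 2 * x) hρ hG h2k hx5 (h := h) (by linarith)
    have h5 := hmain k (2 * x) (2 * s) h hkpos (by linarith) (by linarith) hρh hh
    have h6 : C * Real.sqrt ((1 + Real.log (2 * s)) / k) * (2 * x) ≤ 8 * C * (R * x) := by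
      have h7 : C * Real.sqrt ((1 + Real.log (2 * s)) / k) ≤ C * (4 * R) := mul_le_mul_of_nonneg_left hrate hC.le
      calc C * Real.sqrt ((1 + Real.log (2 * s)) / k) * (2 * x) ≤ C * (4 * R) * (2 * x) :=
            mul_le_mul_of_nonneg_right h7 (by linarith)
        _ = 8 * C * (R * x) := by ring
    rw [hqq] at h4
    linarith
  have hm3 := h3 ρ G ε x s ((8 * C + 1) * (R * x)) hρ0 hε hε1 hs (by linarith) (by positivity) hpair
  have e1 : cN {n : ℤ | ∃ t : ℝ, 1 ≤ t ∧ t ≤ s ∧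
      ε * t < ({h : ℤ | ρ ∣ h ∧ |(h : ℝ)| ≤ t ∧ ¬ (n + h ∈ G ↔ n ∈ G)}.ncard : ℝ)} x ≤
      cN {n : ℤ | s < n ∧ ∃ t : ℝ, 1 ≤ t ∧ t ≤ s ∧
        ε * t < ({h : ℤ | ρ ∣ h ∧ |(h : ℝ)| ≤ t ∧ ¬ (n + h ∈ G ↔ n ∈ G)}.ncard : ℝ)} x +
      cN {n : ℤ | (n : ℝ) ≤ s} x := by
    refine le_trans (POSB.cN_mono (fun n hn _ => ?_) x) (POSB.cN_union_le _ _ x)
    by_cases h2 : (n : ℝ) ≤ s
    · exact Or.inr h2
    · exact Or.inl ⟨not_le.1 h2, hn⟩
  have e2 := cN_low54 (y := s) (x := x) (by linarith)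
  have e3 : s ≤ R * x := by
    have h4 : q ≤ q * q := by nlinarith
    linarith
  have e4 : 72 * |(ρ : ℝ)| / ε * ((8 * C + 1) * (R * x)) + R * x ≤ C₁ / ε * R * x := by
    have h4 : C₁ / ε * R * x = 72 * |(ρ : ℝ)| / ε * ((8 * C + 1) * (R * x)) + 2 / ε * (R * x) := by
      rw [hC₁]
      field_simp
    have h5 : 1 ≤ 2 / ε := by
      rw [le_div_iff₀ hε]
      linarith
    have h6 : 0 ≤ R * x := by positivity
    nlinarith
  linarith

end Pool.Agent.Helper54.GA
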