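import Pool.Agent.Helper54.GA.M4

/-!
Block M5: invariant sets are pure in the windows around almost all points.
-/

set_option autoImplicit false

namespace Pool.Agent.Helper54.GA

open Pool.Agent.Helper68.Moeller Pool.Agent.Helper8 Pool.Agent.Helper8.CO Pool.Agent.Helper8.ND Pool.Agent.Helper28
  Filter Topology

theorem m5 (h1 : StmtG1) : StmtM5 := by
  intro ρ hρ
  obtain ⟨C, hC, hmain⟩ := h1 ρ hρ
  have ha1 := abs_nonneg (ρ : ℝ)
  obtain ⟨C₁, hC₁⟩ : ∃ C₁ : ℝ, C₁ = 3 * C + 4 := ⟨_, rfl⟩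
  refine ⟨C₁, by rw [hC₁]; positivity, fun G z hG => ?_⟩
  have hl2 : 0 < Real.log 2 := Real.log_pos (by norm_num)
  have hl21 : Real.log 2 ≤ 1 := by linarith [Real.log_two_lt_d9]
  have ha2 := abs_nonneg (z : ℝ)
  have hev3 : ∀ᶠ x : ℝ in atTop, 8 ≤ Real.log x := Real.tendsto_log_atTop.eventually_ge_atTop _
  have hev5 : ∀ᶠ x : ℝ in atTop, 4 * (|(ρ : ℝ)| + |(z : ℝ)| + 1) ≤ x ^ (1 / 4 : ℝ) :=
    (tendsto_rpow_atTop (by norm_num : (0 : ℝ) < 1 / 4)).eventually_ge_atTop _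
  filter_upwards [hev3, hev5, eventually_gt_atTop (1 : ℝ)] with x hx3 hx5 hx6
  intro s hs
  have hx0 : 0 < x := by linarith
  obtain ⟨L, hL⟩ : ∃ L : ℝ, L = Real.log x := ⟨_, rfl⟩
  rw [← hL] at hx3 ⊢
  have hL0 : 0 < L := by linarith
  have hLx : L ≤ x := by
    rw [hL]
    have := Real.log_le_sub_one_of_pos hx0
    linarith
  obtain ⟨q, hq⟩ : ∃ q : ℝ, q = x ^ (1 / 4 : ℝ) := ⟨_, rfl⟩
  rw [← hq] at hx5
  have hq0 : 0 < q := by rw [hq]; positivity
  have hq4 : 4 ≤ q := by linarith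
  have hqq : q * q = Real.sqrt x := by
    rw [hq, ← Real.rpow_add hx0, Real.sqrt_eq_rpow]
    norm_num
  have hlq : Real.log q = L / 4 := by
    rw [hq, Real.log_rpow hx0, ← hL]
    ring
  have hqx : q ≤ x := by
    rw [hq]
    calc x ^ (1 / 4 : ℝ) ≤ x ^ (1 : ℝ) := Real.rpow_le_rpow_of_exponent_le hx6.le (by norm_num)
      _ = x := Real.rpow_one x
  have hsx : 0 < Real.sqrt x := Real.sqrt_pos.2 hx0
  have hsL : 0 < Real.sqrt L := Real.sqrt_pos.2 hL0
  have hsxx : Real.sqrt x * Real.sqrt x = x := Real.mul_self_sqrt hx0.le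
  have hs0 : 0 ≤ Real.log s := Real.log_nonneg hs
  obtain ⟨R, hR⟩ : ∃ R : ℝ, R = (1 + Real.log s) / Real.sqrt L := ⟨_, rfl⟩
  rw [← hR]
  have hR0 : 0 ≤ R := by rw [hR]; positivity
  rcases le_or_gt s q with hsq | hsq
  swap
  · -- large windows
    refine (cN_le _ hx0.le).trans ?_
    have h4 : 1 / 4 ≤ R := by
      rw [hR, le_div_iff₀ hsL]
      have h5 : L / 4 ≤ Real.log s := by
        rw [← hlq]
        exact Real.log_le_log hq0 hsq.le
      have h6 : Real.sqrt L ≤ L := by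
        rw [Real.sqrt_le_left hL0.le]
        nlinarith
      linarith
    have h5 : 1 ≤ C₁ * R := by
      rw [hC₁]
      nlinarith
    nlinarith
  -- the time
  obtain ⟨k, hk⟩ : ∃ k : ℕ, k = ⌊L / (4 * Real.log 2)⌋₊ := ⟨_, rfl⟩
  have hk1 : (k : ℝ) ≤ L / (4 * Real.log 2) := by rw [hk]; exact Nat.floor_le (by positivity)
  have hk2 : L / (4 * Real.log 2) < k + 1 := by rw [hk]; exact Nat.lt_floor_add_one _
  have hk3 : L / 4 ≤ L / (4 * Real.log 2) := by
    apply div_le_div_of_nonneg_left hL0.le (by positivity)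
    linarith
  have hk4 : L / 8 ≤ k := by linarith
  have hkpos : 1 ≤ k := by
    have h2 : (1 : ℝ) ≤ k := by linarith
    exact_mod_cast h2
  have hk0 : (0 : ℝ) < k := by exact_mod_cast hkpos
  have h2k : (2 : ℝ) ^ k ≤ q := by
    rw [← Real.log_le_log_iff (by positivity) hq0, Real.log_pow, hlq]
    rw [le_div_iff₀ (by positivity)] at hk1
    linarith
  -- the rate
  have hrate : (1 + Real.log s) / Real.sqrt k ≤ 3 * R := by
    have h2 : Real.sqrt L ≤ 3 * Real.sqrt k := by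
      rw [Real.sqrt_le_left (by positivity), mul_pow, Real.sq_sqrt hk0.le]
      linarith
    rw [hR, div_le_iff₀ (Real.sqrt_pos.2 hk0)]
    calc 1 + Real.log s = (1 + Real.log s) / Real.sqrt L * Real.sqrt L := by field_simp
      _ ≤ (1 + Real.log s) / Real.sqrt L * (3 * Real.sqrt k) := mul_le_mul_of_nonneg_left h2 (by positivity)
      _ = 3 * ((1 + Real.log s) / Real.sqrt L) * Real.sqrt k := by ring
  have hRx : Real.sqrt x ≤ R * x := by
    have h4 : 1 / Real.sqrt x ≤ R := by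
      rw [hR, div_le_div_iff₀ hsx hsL]
      have h5 : Real.sqrt L ≤ Real.sqrt x := Real.sqrt_le_sqrt hLx
      nlinarith
    calc Real.sqrt x = 1 / Real.sqrt x * (Real.sqrt x * Real.sqrt x) := by field_simp
      _ = 1 / Real.sqrt x * x := by rw [hsxx]
      _ ≤ R * x := mul_le_mul_of_nonneg_right h4 hx0.le
  have hm := hmain k x s hkpos (h2k.trans hqx) hs
  have hm2 : C * min 1 ((1 + Real.log s) / Real.sqrt k) * x ≤ 3 * C * (R * x) := by
    have h4 : C * min 1 ((1 + Real.log s) / Real.sqrt k) ≤ C * (3 * R) :=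
      mul_le_mul_of_nonneg_left ((min_le_right _ _).trans hrate) hC.le
    calc C * min 1 ((1 + Real.log s) / Real.sqrt k) * x ≤ C * (3 * R) * x := mul_le_mul_of_nonneg_right h4 hx0.le
      _ = 3 * C * (R * x) := by ring
  -- the inclusion
  have e1 : cN {n : ℤ | ∃ h : ℤ, ρ ∣ h ∧ |(h : ℝ)| ≤ s ∧ ¬ (n + h ∈ G ↔ n ∈ G)} x ≤
      cN {n : ℤ | ∃ h : ℤ, ρ ∣ h ∧ |(h : ℝ)| ≤ s ∧ ¬ MM ρ k 0 n (n + h)} x + cN {n : ℤ | (n : ℝ) ≤ q * q} x := by
    refine le_trans (POSB.cN_mono (fun n hn _ => ?_) x) (POSB.cN_union_le _ _ x)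
    by_cases h2 : (n : ℝ) ≤ q * q
    · exact Or.inr h2
    · left
      push Not at h2
      obtain ⟨h, c1, c2, c3⟩ := hn
      refine ⟨h, c1, c2, fun hM => c3 ?_⟩
      have hh : |(h : ℝ)| ≤ 2 * q := by linarith
      have hK1 : (2 : ℝ) ^ k * (|(ρ : ℝ)| + |(z : ℝ)| + 1) ≤ q * (q / 4) := by
        apply mul_le_mul h2k (by linarith) (by positivity) (by linarith)
      have hg1 : (2 : ℝ) ^ k * (|(ρ : ℝ)| + |(z : ℝ)| + 1) ≤ n := by nlinarith
      have hg2 : (2 : ℝ) ^ k * (|(ρ : ℝ)| + |(z : ℝ)| + 1) ≤ ((n + h : ℤ) : ℝ) := by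
        push_cast
        have := neg_abs_le (h : ℝ)
        nlinarith
      rw [mem_iter54 hρ hG hg2, mem_iter54 hρ hG hg1, hM.1]
  have e2 := cN_low54 (y := q * q) (x := x) (by positivity)
  rw [hqq] at e1 e2
  have e3 : C₁ * R * x = 3 * C * (R * x) + 4 * (R * x) := by rw [hC₁]; ring
  have e4 : 0 ≤ R * x := by positivity
  linarith

end Pool.Agent.Helper54.GA
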