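import Pool.Agent.Helper54.GA.Stmts4
import Pool.Agent.Helper8.SI.Eq
import Pool.Agent.Helper8.SI.F
import Pool.Agent.Helper8.PW.LD
import Pool.Agent.Helper8.PW.CF
import Pool.Agent.Helper8.PW.MIXa

/-!
Block S1: a positive proportion of the windows `[n, n + n ^ θ]` is almost contained in a given invariant set of positive density.
-/

set_option autoImplicit false

namespace Pool.Agent.Helper54.GA

open Pool.Agent.Helper68.Moeller Pool.Agent.Helper52.Tao Pool.Agent.Helper8 Pool.Agent.Helper8.ND Pool.Agent.Helper28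
  Pool.Agent.Helper8.PW Pool.Agent.Helper91 Filter Topology

theorem s1 : StmtS1 := by
  intro ρ hρ θ ε hθ0 hθ1 hε hε1
  have hodd : Odd ρ := by rcases hρ with rfl | rfl <;> decide
  have hadm : Admissible 2 3 (fun _ => ρ) := SI.adm hodd
  have hstd : POSB.Std 2 3 (fun _ => ρ) := ⟨le_refl 2, by norm_num, by norm_num, POS.three_hyp.1, hadm⟩
  have hl : LevelD 2 3 (fun _ => ρ) := levelD hstd (class_flow hstd.hd hstd.hdm hstd.hco hstd.hr (mixS_std hstd))
  have hF : SI.FlowI 2 3 (fun _ => ρ) := SI.flowI hstd.hd hstd.hdm hstd.hco hstd.hr hstd.mix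
  obtain ⟨c, hc, h⟩ := SI.main hρ hl hF hθ0 hθ1 hε hε1
  refine ⟨c / 2, by positivity, fun G z hG D hD hGD => ?_⟩
  obtain ⟨z₀, hz₀⟩ : ∃ z₀ : ℝ, z₀ = max (z : ℝ) 0 := ⟨_, rfl⟩
  have hz₀0 : 0 ≤ z₀ := by rw [hz₀]; exact le_max_right _ _
  have hz₀1 : (z : ℝ) ≤ z₀ := by rw [hz₀]; exact le_max_left _ _
  have hti : TInv 2 3 (fun _ => ρ) G z₀ := fun n hn => hG n (by
    have h1 : (z : ℝ) < n := lt_of_le_of_lt hz₀1 hn
    exact_mod_cast h1)
  obtain ⟨X, hX⟩ := h z₀ (D / 2) hz₀0 (by linarith)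
  filter_upwards [eventually_ge_atTop (max X 1)] with x hx
  have h1 := hX G hti (SI.good_of_fd hstd hti hGD hD) x ((le_max_left _ _).trans hx)
  have e : c / 2 * D * x = c * (D / 2) * x := by ring
  rw [e]
  refine h1.trans (Nat.cast_le.2 (Set.ncard_le_ncard ?_ (SI.dyadic_finite x _)))
  rintro n ⟨h3, h4, s, v, -, h6, h7, h8⟩
  refine ⟨h3, h4, ?_⟩
  refine le_trans (Nat.cast_le.2 (Set.ncard_le_ncard ?_ (SI.window_finite _ _))) h8
  rintro k ⟨a1, a2, a3⟩
  refine ⟨a1, a2, fun e => a3 ?_⟩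
  have hn1 : (1 : ℝ) ≤ n := ((le_max_right _ _).trans hx).trans h3
  have hn0 : (0 : ℤ) < n := by exact_mod_cast (by linarith : (0 : ℝ) < n)
  have hpos : ∀ i : ℕ, 0 < (T 2 3 (fun _ => ρ))^[i] (n + k) := fun i => SI.iter_pos hρ (by omega : 0 < n + k) i
  have hbig : ∀ i : ℕ, i ≤ s → z₀ < (((T 2 3 (fun _ => ρ))^[i] (n + k) : ℤ) : ℝ) := by
    intro i hi
    by_contra hcon
    rw [not_lt] at hcon
    refine h7 _ (s - i) (hpos i) hcon (Nat.sub_le _ _) ?_
    rw [← Function.iterate_add_apply, Nat.sub_add_cancel hi]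
    exact e
  have hmem : ∀ i : ℕ, i ≤ s → (n + k ∈ G ↔ (T 2 3 (fun _ => ρ))^[i] (n + k) ∈ G) := by
    intro i
    induction i with
    | zero => intro _; rfl
    | succ i ih =>
      intro hi
      rw [ih (by omega), Function.iterate_succ_apply']
      exact hti _ (hbig i (by omega))
  rw [hmem s le_rfl, e]
  exact h6

end Pool.Agent.Helper54.GA
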