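import Pool.Agent.Helper8.RU.U5
import Pool.Agent.Helper8.CO.Eqv

/-!
# Neighbouring orbits of the maps `3x - r`: statements of the blocks (MP_fd8838_nt)

`T n = n / 2` for even `n`, `T n = (3 n - ρ) / 2` for odd `n`, `ρ` odd. `MM ρ k 0 n n'`: after `k` steps the orbits are at the same point, with equally many
odd points before. `cN A x` is the number of the elements of `A` in `(0, x]`.
-/

set_option autoImplicit false

namespace Pool.Agent.Helper54.GA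

open Pool.Agent.Helper68.Moeller Pool.Agent.Helper8 Pool.Agent.Helper8.CO Pool.Agent.Helper8.ND Filter Topology

/-- (G1) upper bound for windows, all times `k` with `2 ^ k ≤ x` (from `RU.uni_sharp`) -/
def StmtG1 : Prop := ∀ ρ : ℤ, Odd ρ → ∃ C : ℝ, 0 < C ∧ ∀ (k : ℕ) (x w : ℝ), 1 ≤ k → (2 : ℝ) ^ k ≤ x → 1 ≤ w →
  cN {n : ℤ | ∃ h : ℤ, ρ ∣ h ∧ |(h : ℝ)| ≤ w ∧ ¬ MM ρ k 0 n (n + h)} x ≤
    C * min 1 ((1 + Real.log w) / Real.sqrt k) * x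

/-- (G2) lower bound for the chain: from the level `j ≥ 1` (from `RU.uu_sharp`, the level is a submartingale and its square grows only before the merging) -/
def StmtG2 : Prop := ∀ Q : ℝ, 0 ≤ Q → ∃ c : ℝ, 0 < c ∧ ∀ (k : ℕ) (s : ℕ × ℤ), 1 ≤ k → 1 ≤ s.1 → qq s ≤ Q →
  c * min 1 ((s.1 : ℝ) / Real.sqrt k) ≤ uu k s

/-- (G3a) the chain describes the pairs exactly (lower bound for the number of the residue classes) -/
def StmtG3a : Prop := ∀ ρ : ℤ, Odd ρ → ∀ (k c : ℕ) (β : ℤ),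
  (2 : ℝ) ^ k * uu k (c, β) ≤ (open Classical in ((Finset.range (2 ^ k)).filter
    (fun y : ℕ => ¬ MM ρ k c (y : ℤ) (3 ^ c * (y : ℤ) + ρ * β))).card : ℝ)

/-- (G3b) no coincidences: if both orbits are at the same point at the time `k` then the pair has merged, for large starting points -/
def StmtG3b : Prop := ∀ ρ : ℤ, Odd ρ → ∃ k₀ : ℕ, ∀ (k : ℕ) (n : ℤ), k₀ ≤ k → (7 / 2 : ℝ) ^ k ≤ n →
  (T 2 3 (fun _ => ρ))^[k] n = (T 2 3 (fun _ => ρ))^[k] (n + ρ) → MM ρ k 0 n (n + ρ)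

/-- (G3) lower bound for windows (from G2, G3a, G3b): `y ≡ 0 mod 2 ^ j` and `y + ρ` are at the levels `0` and `j` at the time `j` -/
def StmtG3 : Prop := ∀ ρ : ℤ, Odd ρ → ∃ (c : ℝ) (k₀ : ℕ), 0 < c ∧ ∀ (k : ℕ) (x w : ℝ), k₀ ≤ k → (4 : ℝ) ^ k ≤ x →
  |(ρ : ℝ)| ≤ w → c * min 1 ((1 + Real.log w) / Real.sqrt k) * x ≤
    cN {n : ℤ | ∃ h : ℤ, ρ ∣ h ∧ |(h : ℝ)| ≤ w ∧
      (T 2 3 (fun _ => ρ))^[k] (n + h) ≠ (T 2 3 (fun _ => ρ))^[k] n} x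

/-- the Collatz map -/
def Col (n : ℤ) : ℤ := if (2 : ℤ) ∣ n then n / 2 else 3 * n + 1

/-- (G4) the conjecture of Gao, with a rate (from G1 at the time `⌊log x / (4 log 2)⌋`; `T^[t] n = Col^[t + s] n`, `s` the number of the odd points) -/
def StmtG4 : Prop := ∃ C : ℝ, ∀ x : ℝ, 2 ≤ x →
  cN {n : ℤ | ¬ ∃ k : ℕ, (2 : ℝ) ^ k ≤ n ∧ Col^[k] n = Col^[k] (n + 1)} x ≤ C * x / Real.sqrt (Real.log x)

/-- windows of the size `exp (o (√(log n)))` -/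
def Small (w : ℤ → ℝ) : Prop := ∀ ε : ℝ, 0 < ε → ∃ N : ℤ, ∀ n : ℤ, N ≤ n → w n ≤ Real.exp (ε * Real.sqrt (Real.log n))

/-- (G5) almost all windows merge at a time `k` with `2 ^ k ≤ n ^ (1/2)` -/
def StmtG5 : Prop := ∀ ρ : ℤ, Odd ρ → ∀ w : ℤ → ℝ, Small w →
  Tendsto (fun x : ℝ => cN {n : ℤ | ¬ ∃ k : ℕ, (4 : ℝ) ^ k ≤ n ∧ ∀ h : ℤ, ρ ∣ h → |(h : ℝ)| ≤ w n → MM ρ k 0 n (n + h)} x / x)
    atTop (𝓝 0)

/-- (G6) for invariant sets (up to finitely many elements) almost all windows are empty or full (from G5) -/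
def StmtG6 : Prop := ∀ ρ : ℤ, Odd ρ → ∀ w : ℤ → ℝ, Small w → ∀ (G : Set ℤ) (z : ℤ),
  (∀ n : ℤ, z < n → (n ∈ G ↔ T 2 3 (fun _ => ρ) n ∈ G)) →
  Tendsto (fun x : ℝ => cN {n : ℤ | ¬ ∀ h : ℤ, ρ ∣ h → |(h : ℝ)| ≤ w n → (n + h ∈ G ↔ n ∈ G)} x / x) atTop (𝓝 0)

end Pool.Agent.Helper54.GA
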