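import Pool.Agent.Helper54.GA.Stmts
import Pool.Agent.Helper8.CO.Ph

/-!
# Neighbouring orbits of the maps `3x - r`: statements of the blocks, II (MP_fd8838_nt)

Pairs at the distance `|h| ≤ w = x ^ (o (1))`.
-/

set_option autoImplicit false

namespace Pool.Agent.Helper54.GA

open Pool.Agent.Helper68.Moeller Pool.Agent.Helper8 Pool.Agent.Helper8.CO Pool.Agent.Helper8.ND Filter Topology

/-- (G7) the sharp rate for a pair (from `RU.uu_sharp`, `CO.first` with `t = ⌈17 (1 + log H)⌉`; trivial for `k ≤ 2 t`) -/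
def StmtG7 : Prop := ∃ C : ℝ, 0 < C ∧ ∀ (k : ℕ) (η : ℤ) (H : ℝ), 1 ≤ k → 1 ≤ H → |(η : ℝ)| ≤ H →
  uu k (0, η) ≤ C * Real.sqrt ((1 + Real.log H) / k)

/-- (G8) most of the neighbours at the distance at most `w` have merged (from G7, `CO.den` and the Markov inequality) -/
def StmtG8 : Prop := ∀ ρ : ℤ, Odd ρ → ∃ C : ℝ, 0 < C ∧ ∀ (k : ℕ) (x w ε : ℝ), 1 ≤ k → (2 : ℝ) ^ k ≤ x → 1 ≤ w → 0 < ε →
  cN {n : ℤ | ε * w < ({h : ℤ | ρ ∣ h ∧ |(h : ℝ)| ≤ w ∧ ¬ MM ρ k 0 n (n + h)}.ncard : ℝ)} x ≤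
    C / ε * Real.sqrt ((1 + Real.log w) / k) * x

/-- windows of the size `x ^ (o (1))` -/
def Sub (w : ℝ → ℝ) : Prop := (∀ x : ℝ, 1 ≤ w x) ∧ ∀ ε : ℝ, 0 < ε → ∀ᶠ x : ℝ in atTop, w x ≤ x ^ ε

/-- (G9) for invariant sets almost all windows are almost empty or almost full (from G8) -/
def StmtG9 : Prop := ∀ ρ : ℤ, Odd ρ → ∀ w : ℝ → ℝ, Sub w → ∀ (G : Set ℤ) (z : ℤ),
  (∀ n : ℤ, z < n → (n ∈ G ↔ T 2 3 (fun _ => ρ) n ∈ G)) → ∀ ε : ℝ, 0 < ε →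
  Tendsto (fun x : ℝ => cN {n : ℤ | ε * w x < ({h : ℤ | ρ ∣ h ∧ |(h : ℝ)| ≤ w x ∧ ¬ (n + h ∈ G ↔ n ∈ G)}.ncard : ℝ)} x / x)
    atTop (𝓝 0)

end Pool.Agent.Helper54.GA
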