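import Pool.Agent.Helper54.GA.Stmts2

/-!
# Neighbouring orbits of the maps `3x - r`: statements of the blocks, III (MP_fd8838_nt)

Invariant sets are pure around almost all points, at all scales at once.
-/

set_option autoImplicit false

namespace Pool.Agent.Helper54.GA

open Pool.Agent.Helper68.Moeller Pool.Agent.Helper8 Pool.Agent.Helper8.CO Pool.Agent.Helper8.ND Filter Topology

/-- (M1) a maximal inequality along the multiples of `ρ`. Induction on `F.card`: take `n₁ ∈ F` with `t n₁` maximal; at most `6 * t n₁` elements `n` of `F`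
have `ρ ∣ n - n₁`, `|n - n₁| ≤ 2 * t n₁` (as in `card54` of `G10.lean`), the windows of all the other elements are disjoint from the window of `n₁`: remove
these elements from `F` and the window of `n₁` from `A`. -/
def StmtM1 : Prop := ∀ (ρ : ℤ) (ε : ℝ), ρ ≠ 0 → 0 < ε → ∀ (F A : Finset ℤ) (t : ℤ → ℝ),
  (∀ n ∈ F, 1 ≤ t n ∧ ε * t n < ({k : ℤ | k ∈ A ∧ ρ ∣ k - n ∧ |((k - n : ℤ) : ℝ)| ≤ t n}.ncard : ℝ)) →
  (F.card : ℝ) ≤ 6 / ε * (A.card : ℝ)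

/-- (M2) the first moment for one difference (from G7 and `CO.den`, as in the proof of G8) -/
def StmtM2 : Prop := ∀ ρ : ℤ, Odd ρ → ∃ C : ℝ, 0 < C ∧ ∀ (k : ℕ) (x w : ℝ) (h : ℤ), 1 ≤ k → (2 : ℝ) ^ k ≤ x → 1 ≤ w →
  ρ ∣ h → |(h : ℝ)| ≤ w → cN {n : ℤ | ¬ MM ρ k 0 n (n + h)} x ≤ C * Real.sqrt ((1 + Real.log w) / k) * x

/-- (M3) the points which are not pure at some scale (from M1): let `F` be the set of these points in `(s, x]`, `H ≥ s / |ρ|` the number of the `h` with `ρ ∣ h`,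
`|h| ≤ s`; then `F.card * H` is the sum over `0 < m ≤ 2 * x` of the number of the `n ∈ F` with `ρ ∣ n - m`, `|n - m| ≤ s`. By M1 and `ε ≤ 1`
there are at most `6 / ε * min a b` of them in `G` and at most `6 / ε * min a b` of them outside of `G`, `a` (`b`) the number of the `k` in (not in) `G` with `ρ ∣ k - m`,
`|k - m| ≤ 2 * s`; `min a b` is at most the number of the `h` with `ρ ∣ h`, `|h| ≤ 2 * s`, `¬ (m + h ∈ G ↔ m ∈ G)`. Sum over `m`; there are at most `6 * s` of the `h`. -/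
def StmtM3 : Prop := ∀ (ρ : ℤ) (G : Set ℤ) (ε x s q : ℝ), ρ ≠ 0 → 0 < ε → ε ≤ 1 → 1 ≤ s → s ≤ x → 0 ≤ q →
  (∀ h : ℤ, ρ ∣ h → |(h : ℝ)| ≤ 2 * s → cN {n : ℤ | ¬ (n + h ∈ G ↔ n ∈ G)} (2 * x) ≤ q) →
  cN {n : ℤ | s < n ∧ ∃ t : ℝ, 1 ≤ t ∧ t ≤ s ∧
    ε * t < ({h : ℤ | ρ ∣ h ∧ |(h : ℝ)| ≤ t ∧ ¬ (n + h ∈ G ↔ n ∈ G)}.ncard : ℝ)} x ≤ 72 * |(ρ : ℝ)| / ε * q

/-- (M4) invariant sets are almost pure at all scales `t ≤ s` around almost all points (from M2 and M3) -/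
def StmtM4 : Prop := ∀ ρ : ℤ, Odd ρ → ∃ C : ℝ, 0 < C ∧ ∀ (G : Set ℤ) (z : ℤ),
  (∀ n : ℤ, z < n → (n ∈ G ↔ T 2 3 (fun _ => ρ) n ∈ G)) → ∀ᶠ x : ℝ in atTop, ∀ s ε : ℝ, 1 ≤ s → 0 < ε → ε ≤ 1 →
    cN {n : ℤ | ∃ t : ℝ, 1 ≤ t ∧ t ≤ s ∧
      ε * t < ({h : ℤ | ρ ∣ h ∧ |(h : ℝ)| ≤ t ∧ ¬ (n + h ∈ G ↔ n ∈ G)}.ncard : ℝ)} x ≤
        C / ε * Real.sqrt ((1 + Real.log s) / Real.log x) * x

/-- (M5) invariant sets are pure in the windows of the size `s` around almost all points (from G1) -/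
def StmtM5 : Prop := ∀ ρ : ℤ, Odd ρ → ∃ C : ℝ, 0 < C ∧ ∀ (G : Set ℤ) (z : ℤ),
  (∀ n : ℤ, z < n → (n ∈ G ↔ T 2 3 (fun _ => ρ) n ∈ G)) → ∀ᶠ x : ℝ in atTop, ∀ s : ℝ, 1 ≤ s →
    cN {n : ℤ | ∃ h : ℤ, ρ ∣ h ∧ |(h : ℝ)| ≤ s ∧ ¬ (n + h ∈ G ↔ n ∈ G)} x ≤
      C * ((1 + Real.log s) / Real.sqrt (Real.log x)) * x

end Pool.Agent.Helper54.GA
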