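import Pool.Agent.Helper54.GA.Stmts3

/-!
# Neighbouring orbits of the maps `3x - r`: statements of the blocks, IV (MP_fd8838_nt)

`r = 1` or `r = -1`: long windows.
-/

set_option autoImplicit false

namespace Pool.Agent.Helper54.GA

open Pool.Agent.Helper68.Moeller Pool.Agent.Helper8 Pool.Agent.Helper8.CO Pool.Agent.Helper8.ND Filter Topology

/-- (S1) a positive proportion of the windows `[n, n + n ^ θ]` is almost contained in a given invariant set of positive density (from `SI.main`) -/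
def StmtS1 : Prop := ∀ ρ : ℤ, ρ = 1 ∨ ρ = -1 → ∀ θ ε : ℝ, 0 < θ → θ < 1 → 0 < ε → ε ≤ 1 → ∃ c : ℝ, 0 < c ∧ ∀ (G : Set ℤ) (z : ℤ),
  (∀ n : ℤ, z < n → (n ∈ G ↔ T 2 3 (fun _ => ρ) n ∈ G)) → ∀ D : ℝ, 0 < D → Tendsto (fun x : ℝ => cN G x / x) atTop (𝓝 D) →
  ∀ᶠ x : ℝ in atTop, c * D * x ≤
    ({n : ℤ | x ≤ n ∧ (n : ℝ) < 2 * x ∧ ({h : ℤ | 0 ≤ h ∧ (h : ℝ) ≤ (n : ℝ) ^ θ ∧ n + h ∉ G}.ncard : ℝ) ≤ ε * (n : ℝ) ^ θ}.ncard : ℝ)

/-- (S2) a positive proportion of the points is almost surrounded by a given invariant set of positive density, at all scales up to `x ^ θ` (from S1 and M1).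
Let `θ' = (1 + θ) / 2`, `ε' = ε / 144`, `y = x / 4`, `S` the set of the `n ∈ [y, 2 y)` of S1 with `θ', ε'`, `H = y ^ θ'` (so `H ≤ n ^ θ' ≤ 2 H`). Let `n ∈ S`. At most `2 ε' H`
of the integers of `[n, n + H]` are not in `G`. By M1 (with `ρ = 1`) at most `(6 / ε) * 2 ε' H = H / 12` of the integers of `[n + H / 3, n + 2 H / 3]` are bad: here `x ^ θ ≤ H / 3`
for large `x`. So at least `H / 5` integers of `[n, n + H]` are good. Every integer is in `[n, n + H]` for at most `H + 1` of the `n`: there are at least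
`S.card * (H / 5) / (H + 1) ≥ S.card / 6` good integers in `(0, x]`. -/
def StmtS2 : Prop := ∀ ρ : ℤ, ρ = 1 ∨ ρ = -1 → ∀ θ ε : ℝ, 0 < θ → θ < 1 → 0 < ε → ε ≤ 1 → ∃ c : ℝ, 0 < c ∧ ∀ (G : Set ℤ) (z : ℤ),
  (∀ n : ℤ, z < n → (n ∈ G ↔ T 2 3 (fun _ => ρ) n ∈ G)) → ∀ D : ℝ, 0 < D → Tendsto (fun x : ℝ => cN G x / x) atTop (𝓝 D) →
  ∀ᶠ x : ℝ in atTop, c * D * x ≤
    cN {n : ℤ | ∀ t : ℝ, 1 ≤ t → t ≤ x ^ θ → ({h : ℤ | |(h : ℝ)| ≤ t ∧ n + h ∉ G}.ncard : ℝ) ≤ ε * t} x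

end Pool.Agent.Helper54.GA
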